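import Mathlib

set_option autoImplicit false

/-! # Counting polynomials and irreducible polynomials over a finite field -/

namespace Pool.Agent.H525.FF

open Polynomial Finset

section Basic

variable (F : Type) [Field F] [Fintype F]

theorem finite_degree_lt (m : ℕ) : {h : F[X] | h.degree < m}.Finite := by
  classical
  apply Set.Finite.of_finite_image (f := fun h : F[X] => fun i : Fin m => h.coeff i)
  · exact Set.toFinite _
  · intro g hg h hh hgh
    ext i
    by_cases hi : i < m
    · exact congrFun hgh ⟨i, hi⟩
    · rw [coeff_eq_zero_of_degree_lt (lt_of_lt_of_le hg (by exact_mod_cast not_lt.1 hi)),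
        coeff_eq_zero_of_degree_lt (lt_of_lt_of_le hh (by exact_mod_cast not_lt.1 hi))]

/-- the polynomials of degree less than `m` -/
noncomputable def PD (m : ℕ) : Finset F[X] := (finite_degree_lt F m).toFinset

variable {F}

theorem mem_PD {m : ℕ} {h : F[X]} : h ∈ PD F m ↔ h.degree < m := by
  simp [PD]

theorem card_PD (m : ℕ) : (PD F m).card = Fintype.card F ^ m := by
  classical
  have h1 : (PD F m).card = Nat.card (degreeLT F m) := by
    have e : ((degreeLT F m : Submodule F F[X]) : Set F[X]) = (PD F m : Set F[X]) := by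
      ext x
      rw [SetLike.mem_coe, mem_degreeLT, mem_coe, mem_PD]
    rw [← SetLike.coe_sort_coe, e]
    simp
  rw [h1, Nat.card_congr (degreeLTEquiv F m).toEquiv]
  simp

/-- a residue class to a modulus of degree at most `m` -/
theorem card_PD_dvd (m : ℕ) (R : F[X]) (hR : R.Monic) (hRm : R.natDegree ≤ m) (c : F[X]) :
    letI : DecidablePred (fun h : F[X] => R ∣ h - c) := fun _ => Classical.propDecidable _
    ((PD F m).filter (fun h => R ∣ h - c)).card = Fintype.card F ^ (m - R.natDegree) := by
  classical
  rw [← card_PD (F := F) (m - R.natDegree)]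
  symm
  refine Finset.card_bij (fun g _ => R * g + c %ₘ R) ?_ ?_ ?_
  · intro g hg
    rw [mem_PD] at hg
    rw [mem_filter, mem_PD]
    constructor
    · refine lt_of_le_of_lt (degree_add_le _ _) (max_lt ?_ ?_)
      · by_cases h0 : g = 0
        · rw [h0, mul_zero, degree_zero]
          exact WithBot.bot_lt_coe _
        · rw [degree_mul, degree_eq_natDegree hR.ne_zero, degree_eq_natDegree h0]
          rw [degree_eq_natDegree h0] at hg
          have hg' : g.natDegree < m - R.natDegree := by exact_mod_cast hg
          have : R.natDegree + g.natDegree < m := by omega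
          exact_mod_cast this
      · refine lt_of_lt_of_le (degree_modByMonic_lt _ hR) ?_
        rw [degree_eq_natDegree hR.ne_zero]
        exact_mod_cast hRm
    · have h1 : c = c %ₘ R + R * (c /ₘ R) := (modByMonic_add_div c R).symm
      have : R * g + c %ₘ R - c = R * (g - c /ₘ R) := by
        conv_lhs => rw [h1]
        rw [show R * g + (c %ₘ R + R * (c /ₘ R)) %ₘ R - (c %ₘ R + R * (c /ₘ R)) =
          R * (g - c /ₘ R) + ((c %ₘ R + R * (c /ₘ R)) %ₘ R - c %ₘ R) by ring, ← h1, sub_self,
          add_zero]
      rw [this]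
      exact dvd_mul_right _ _
  · intro g _ g' _ h
    have h1 : R * g = R * g' := add_right_cancel h
    exact mul_left_cancel₀ hR.ne_zero h1
  · intro h hh
    rw [mem_filter, mem_PD] at hh
    refine ⟨h /ₘ R, ?_, ?_⟩
    · rw [mem_PD]
      by_cases h0 : h /ₘ R = 0
      · rw [h0, degree_zero]
        exact WithBot.bot_lt_coe _
      · have h2 : ¬ h.degree < R.degree := fun hlt => h0 ((divByMonic_eq_zero_iff hR).2 hlt)
        have h3 := degree_add_divByMonic hR (not_lt.1 h2)
        have h4 : h ≠ 0 := by
          rintro rfl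
          simp at h0
        rw [degree_eq_natDegree hR.ne_zero, degree_eq_natDegree h0, degree_eq_natDegree h4] at h3
        have h5 := hh.1
        rw [degree_eq_natDegree h4] at h5
        have h6 : h.natDegree < m := by exact_mod_cast h5
        have h7 : R.natDegree + (h /ₘ R).natDegree = h.natDegree := by exact_mod_cast h3
        rw [degree_eq_natDegree h0]
        have : (h /ₘ R).natDegree < m - R.natDegree := by omega
        exact_mod_cast this
    · have h1 : h %ₘ R = c %ₘ R := by
        have h2 := sub_modByMonic h c R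
        rw [(modByMonic_eq_zero_iff_dvd hR).2 hh.2] at h2
        exact (sub_eq_zero.1 h2.symm)
      change R * (h /ₘ R) + c %ₘ R = h
      rw [← h1, add_comm]
      exact modByMonic_add_div h R

omit [Fintype F] in
/-- Chinese remainder theorem -/
theorem crt_poly {ι : Type} (s : Finset ι) (p : ι → F[X])
    (hp : ∀ i ∈ s, ∀ j ∈ s, i ≠ j → IsCoprime (p i) (p j)) (c : ι → F[X]) :
    ∃ r : F[X], ∀ i ∈ s, p i ∣ r - c i := by
  classical
  induction s using Finset.induction_on with
  | empty => exact ⟨0, by simp⟩
  | insert j s hj ih =>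
    obtain ⟨r, hr⟩ := ih (fun i hi k hk hik =>
      hp i (Finset.mem_insert_of_mem hi) k (Finset.mem_insert_of_mem hk) hik)
    have hcop : IsCoprime (∏ i ∈ s, p i) (p j) := by
      apply IsCoprime.prod_left
      intro i hi
      exact hp i (Finset.mem_insert_of_mem hi) j (Finset.mem_insert_self _ _)
        (fun h => hj (h ▸ hi))
    obtain ⟨a, b, hab⟩ := hcop
    refine ⟨r + (∏ i ∈ s, p i) * a * (c j - r), ?_⟩
    intro i hi
    rcases Finset.mem_insert.mp hi with rfl | hi
    · have : r + (∏ i ∈ s, p i) * a * (c i - r) - c i = p i * (b * (r - c i)) := by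
        have h1 : (∏ i ∈ s, p i) * a = 1 - b * p i := by linear_combination hab
        rw [h1]; ring
      rw [this]
      exact dvd_mul_right _ _
    · have h1 : r + (∏ i ∈ s, p i) * a * (c j - r) - c i =
          (r - c i) + (∏ i ∈ s, p i) * (a * (c j - r)) := by ring
      rw [h1]
      exact dvd_add (hr i hi) (Dvd.dvd.mul_right (Finset.dvd_prod_of_mem p hi) _)

end Basic

section Irr

variable (F : Type) [Field F] [Fintype F]

/-- the monic irreducible polynomials of degree `k` -/
noncomputable def Ir (k : ℕ) : Finset F[X] :=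
  letI : DecidablePred (fun h : F[X] => h.Monic ∧ Irreducible h ∧ h.natDegree = k) :=
    fun _ => Classical.propDecidable _
  (PD F (k + 1)).filter (fun h => h.Monic ∧ Irreducible h ∧ h.natDegree = k)

/-- their number -/
noncomputable def NI (k : ℕ) : ℕ := (Ir F k).card

variable {F}

theorem mem_Ir {k : ℕ} {P : F[X]} : P ∈ Ir F k ↔ P.Monic ∧ Irreducible P ∧ P.natDegree = k := by
  classical
  unfold Ir
  simp only [mem_filter, mem_PD]
  constructor
  · exact fun h => h.2
  · intro h
    refine ⟨?_, h⟩
    rw [degree_eq_natDegree h.1.ne_zero, h.2.2]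
    exact_mod_cast Nat.lt_succ_self k

theorem Ir_zero : Ir F 0 = ∅ := by
  ext P
  rw [mem_Ir]
  constructor
  · rintro ⟨h1, h2, h3⟩
    exact absurd (natDegree_pos_iff_degree_pos.2 (degree_pos_of_irreducible h2)) (by omega)
  · intro h
    exact absurd h (notMem_empty _)

theorem pos_of_mem_Ir {k : ℕ} {P : F[X]} (h : P ∈ Ir F k) : 1 ≤ k := by
  rcases Nat.eq_zero_or_pos k with rfl | h1
  · rw [Ir_zero] at h
    exact absurd h (notMem_empty _)
  · exact h1

/-- the elements of the extension of degree `m` are the roots of the irreducible polynomials -/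
theorem sum_NI (m : ℕ) (hm : 1 ≤ m) :
    ∑ k ∈ m.divisors, k * NI F k = Fintype.card F ^ m := by
  classical
  obtain ⟨p, hp⟩ := CharP.exists F
  have : Fact (Nat.Prime p) := ⟨CharP.char_is_prime F p⟩
  have : NeZero m := ⟨by omega⟩
  let E := FiniteField.Extension F p m
  let _ : Fintype E := Fintype.ofFinite E
  have hfr : Module.finrank F E = m := FiniteField.finrank_extension F p m
  have hcard : Fintype.card E = Fintype.card F ^ m := by
    rw [Module.card_eq_pow_finrank (K := F) (V := E), hfr]
  have hdeg : ∀ x : E, (minpoly F x).natDegree ∣ m := by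
    intro x
    have hx : IsIntegral F x := Algebra.IsIntegral.isIntegral x
    have h1 := Module.finrank_mul_finrank F (IntermediateField.adjoin F {x}) E
    rw [IntermediateField.adjoin.finrank hx] at h1
    have h2 : (minpoly F x).natDegree ∣ Module.finrank F E := ⟨_, h1.symm⟩
    have h3 : Module.finrank F E = m := hfr
    rwa [h3] at h2
  have h1 : ∀ x ∈ (univ : Finset E), minpoly F x ∈ m.divisors.biUnion (fun k => Ir F k) := by
    intro x _
    have hx : IsIntegral F x := Algebra.IsIntegral.isIntegral x
    rw [mem_biUnion]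
    exact ⟨(minpoly F x).natDegree, Nat.mem_divisors.2 ⟨hdeg x, by omega⟩,
      mem_Ir.2 ⟨minpoly.monic hx, minpoly.irreducible hx, rfl⟩⟩
  have h2 : Fintype.card E = ∑ P ∈ m.divisors.biUnion (fun k => Ir F k),
      (univ.filter (fun x : E => minpoly F x = P)).card := by
    rw [← Finset.card_univ, Finset.card_eq_sum_card_fiberwise h1]
  rw [← hcard, h2, Finset.sum_biUnion]
  · apply sum_congr rfl
    intro k hk
    have h3 : ∀ P ∈ Ir F k, (univ.filter (fun x : E => minpoly F x = P)).card = k := by
      intro P hP
      rw [mem_Ir] at hP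
      obtain ⟨hmon, hirr, hk'⟩ := hP
      have h3 : univ.filter (fun x : E => minpoly F x = P) = (P.rootSet E).toFinset := by
        ext x
        rw [mem_filter, Set.mem_toFinset, mem_rootSet]
        constructor
        · rintro ⟨_, rfl⟩
          exact ⟨hmon.ne_zero, minpoly.aeval F x⟩
        · rintro ⟨_, h⟩
          exact ⟨mem_univ _, (minpoly.eq_of_irreducible_of_monic hirr h hmon).symm⟩
      have hsplit : (P.map (algebraMap F E)).Splits := by
        have h4 : P ∣ X ^ (Nat.card F) ^ m - X :=
          (hirr.natDegree_dvd_iff_dvd_X_pow_card_pow_sub_X).1 (hk' ▸ Nat.dvd_of_mem_divisors hk)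
        have h5 : (P.map (algebraMap F E)) ∣ (X ^ (Nat.card F) ^ m - X : E[X]) := by
          have := Polynomial.map_dvd (algebraMap F E) h4
          simpa using this
        have hcard : (Nat.card F) ^ m = Fintype.card E := by
          rw [Nat.card_eq_fintype_card, hcard]
        rw [hcard] at h5
        have h6 : (X ^ Fintype.card E - X : E[X]).Splits := by
          rw [splits_iff_card_roots, FiniteField.roots_X_pow_card_sub_X,
            FiniteField.X_pow_card_sub_X_natDegree_eq _ Fintype.one_lt_card]
          rfl
        exact h6.of_dvd (FiniteField.X_pow_card_sub_X_ne_zero _ Fintype.one_lt_card) h5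
      rw [h3, Set.toFinset_card, card_rootSet_eq_natDegree
        (PerfectField.separable_of_irreducible hirr) hsplit, hk']
    rw [sum_congr rfl h3, sum_const, smul_eq_mul, mul_comm]
    rfl
  · intro k _ l _ hkl
    change Disjoint _ _
    rw [Finset.disjoint_left]
    intro P h1 h2
    rw [mem_Ir] at h1 h2
    exact hkl (h1.2.2.symm.trans h2.2.2)

theorem NI_le (k : ℕ) (hk : 1 ≤ k) : k * NI F k ≤ Fintype.card F ^ k := by
  rw [← sum_NI k hk]
  exact Finset.single_le_sum (f := fun j => j * NI F j) (fun _ _ => Nat.zero_le _)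
    (Nat.mem_divisors.2 ⟨dvd_rfl, by omega⟩)

theorem NI_ge (k : ℕ) (hk : 1 ≤ k) :
    Fintype.card F ^ k ≤ k * NI F k + 2 * Fintype.card F ^ (k / 2) := by
  have hq : 2 ≤ Fintype.card F := Fintype.one_lt_card
  have h0 := sum_NI (F := F) k hk
  have h1 : k.divisors = insert k k.properDivisors := by
    rw [Nat.insert_self_properDivisors (by omega)]
  rw [h1, sum_insert Nat.self_notMem_properDivisors] at h0
  have h2 : ∑ j ∈ k.properDivisors, j * NI F j ≤ ∑ j ∈ Finset.Icc 1 (k / 2), Fintype.card F ^ j := by
    refine le_trans (Finset.sum_le_sum_of_subset_of_nonneg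
      (t := Finset.Icc 1 (k / 2)) ?_ (fun _ _ _ => Nat.zero_le _)) ?_
    · intro j hj
      rw [Nat.mem_properDivisors] at hj
      obtain ⟨⟨c, hc⟩, hlt⟩ := hj
      have hj0 : 1 ≤ j := by
        rcases Nat.eq_zero_or_pos j with rfl | h
        · omega
        · exact h
      have hc2 : 2 ≤ c := by
        rcases c with _ | _ | c
        · omega
        · omega
        · omega
      rw [mem_Icc]
      refine ⟨hj0, ?_⟩
      rw [Nat.le_div_iff_mul_le (by norm_num)]
      rw [hc]
      exact Nat.mul_le_mul_left j hc2
    · apply Finset.sum_le_sum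
      intro j hj
      exact NI_le j (mem_Icc.1 hj).1
  have h3 : ∀ n : ℕ, ∑ j ∈ Finset.Icc 1 n, Fintype.card F ^ j ≤ 2 * Fintype.card F ^ n := by
    intro n
    induction n with
    | zero => simp
    | succ n ih =>
      rw [Finset.sum_Icc_succ_top (by omega), pow_succ]
      have : 2 * Fintype.card F ^ n ≤ Fintype.card F ^ n * Fintype.card F := by
        rw [mul_comm]
        exact Nat.mul_le_mul_left _ hq
      omega
  have h4 := h3 (k / 2)
  omega

end Irr

end Pool.Agent.H525.FF
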