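import Pool.Agent.H525.FF.Mertens
import Pool.Agent.H525.AC.Cov

set_option autoImplicit false

/-! # The covering theorem for polynomials over a finite field -/

namespace Pool.Agent.H525.FF

open Polynomial Finset Pool.Agent.H256R2.SC

open scoped Classical

section Enum

variable {γ : Type}

/-- enumeration of a finite set -/
noncomputable def enum (S : Finset γ) (i : Fin S.card) : γ := (S.equivFin.symm i : γ)

theorem enum_mem (S : Finset γ) (i : Fin S.card) : enum S i ∈ S := (S.equivFin.symm i).2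

theorem enum_inj (S : Finset γ) : Function.Injective (enum S) := by
  intro i j h
  exact S.equivFin.symm.injective (Subtype.ext h)

theorem sum_enum (S : Finset γ) (φ : γ → ℝ) : ∑ i, φ (enum S i) = ∑ x ∈ S, φ x := by
  rw [← Finset.sum_coe_sort S]
  exact Fintype.sum_equiv S.equivFin.symm _ _ (fun i => rfl)

end Enum

section Col

variable {F : Type} [Field F] {κ : Type}

/-- the shift `k` such that `P` divides `u + sh k` -/
noncomputable def colF (P : F[X]) (sh : κ → F[X]) (u : F[X]) : Option κ :=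
  if h : ∃ k, P ∣ u + sh k then some (Classical.choose h) else none

theorem colF_eq {P : F[X]} {sh : κ → F[X]} (hinj : ∀ k l, k ≠ l → ¬ P ∣ sh k - sh l) (u : F[X])
    (k : κ) : colF P sh u = some k ↔ P ∣ u + sh k := by
  unfold colF
  constructor
  · intro h
    split_ifs at h with h1
    have h2 : Classical.choose h1 = k := Option.some.inj h
    rw [← h2]
    exact Classical.choose_spec h1
  · intro h
    have h1 : ∃ k, P ∣ u + sh k := ⟨k, h⟩
    rw [dif_pos h1]
    congr 1
    by_contra hne
    apply hinj _ _ hne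
    have h2 := dvd_sub (Classical.choose_spec h1) h
    rwa [add_sub_add_left_eq_sub] at h2

end Col

variable {F : Type} [Field F] [Fintype F]

theorem log_qr_pos : 0 < Real.log (qr F) := Real.log_pos (by linarith [two_le_qr F])

theorem pow_le_iff {w : ℝ} (hw : 1 ≤ w) (k : ℕ) :
    qr F ^ k ≤ w ↔ k ≤ ⌊Real.log w / Real.log (qr F)⌋₊ := by
  have h1 := log_qr_pos (F := F)
  have h2 := qr_pos F
  rw [Nat.le_floor_iff (div_nonneg (Real.log_nonneg hw) h1.le), le_div_iff₀ h1,
    ← Real.log_pow, Real.log_le_log_iff (by positivity) (by linarith)]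

/-- the sum over the enumerated polynomials whose norm is at most `w` -/
theorem sum_small (D K : ℕ) (w : ℝ) (hw : 1 ≤ w)
    (hwK : ⌊Real.log w / Real.log (qr F)⌋₊ ≤ K) (φ : ℕ → ℝ) :
    ∑ i with qr F ^ (enum (PrS F D K) i).natDegree ≤ w, φ (enum (PrS F D K) i).natDegree =
      ∑ k ∈ Ioc D ⌊Real.log w / Real.log (qr F)⌋₊, NI F k * φ k := by
  rw [Finset.sum_filter]
  have h1 := sum_enum (PrS F D K) (fun P => if qr F ^ P.natDegree ≤ w then φ P.natDegree else 0)
  rw [h1]
  have h2 := sum_PrS (F := F) D K (fun k => if qr F ^ k ≤ w then φ k else 0)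
  rw [h2]
  have h3 : Ioc D ⌊Real.log w / Real.log (qr F)⌋₊ = (Ioc D K).filter (fun k => qr F ^ k ≤ w) := by
    ext k
    rw [mem_filter, mem_Ioc, mem_Ioc, pow_le_iff hw]
    omega
  rw [h3, Finset.sum_filter]
  apply Finset.sum_congr rfl
  intro k _
  split_ifs <;> simp

theorem event_card {n : ℕ} {κ : Type} (P : Fin n → F[X]) (hPm : ∀ i, (P i).Monic)
    (hPc : ∀ i j, i ≠ j → IsCoprime (P i) (P j)) (sh : κ → F[X])
    (hinj : ∀ i, ∀ k l, k ≠ l → ¬ P i ∣ sh k - sh l) (M b : F[X]) (hM : M.Monic)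
    (hMc : ∀ i, IsCoprime M (P i)) (m₀ : ℕ) (D : Col n κ)
    (hdeg : M.natDegree + ∑ i with D i ≠ none, (P i).natDegree ≤ m₀) :
    (((PD F m₀).filter (fun u => M ∣ u - b)).filter
      (fun u => ∀ i, D i ≠ none → colF (P i) sh u = D i)).card =
      Fintype.card F ^ (m₀ - (M.natDegree + ∑ i with D i ≠ none, (P i).natDegree)) := by
  set S : Finset (Fin n) := univ.filter (fun i => D i ≠ none) with hS
  -- the residue
  obtain ⟨r, hr⟩ := crt_poly (insert none (S.map ⟨some, Option.some_injective _⟩))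
    (fun o : Option (Fin n) => o.elim M P)
    (by
      intro i hi j hj hij
      cases i with
      | none =>
        cases j with
        | none => exact absurd rfl hij
        | some j => exact hMc j
      | some i =>
        cases j with
        | none => exact (hMc i).symm
        | some j => exact hPc i j (fun h => hij (congrArg some h)))
    (fun o => o.elim b (fun i => match D i with
      | none => 0
      | some k => - sh k))
  have hrM : M ∣ r - b := hr none (Finset.mem_insert_self _ _)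
  have hrP : ∀ i ∈ S, ∀ k, D i = some k → P i ∣ r + sh k := by
    intro i hi k hk
    have h1 := hr (some i) (Finset.mem_insert_of_mem (Finset.mem_map_of_mem _ hi))
    simp only [Option.elim_some, hk, sub_neg_eq_add] at h1
    exact h1
  set R : F[X] := M * ∏ i ∈ S, P i with hR
  have hRm : R.Monic := hM.mul (monic_prod_of_monic _ _ (fun i _ => hPm i))
  have hRd : R.natDegree = M.natDegree + ∑ i ∈ S, (P i).natDegree := by
    rw [hR, hM.natDegree_mul (monic_prod_of_monic _ _ (fun i _ => hPm i)),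
      natDegree_prod_of_monic _ _ (fun i _ => hPm i)]
  have hset : ((PD F m₀).filter (fun u => M ∣ u - b)).filter
      (fun u => ∀ i, D i ≠ none → colF (P i) sh u = D i) =
      (PD F m₀).filter (fun u => R ∣ u - r) := by
    rw [Finset.filter_filter]
    apply Finset.filter_congr
    intro u _
    constructor
    · rintro ⟨h1, h2⟩
      have h3 : M ∣ u - r := by
        have := dvd_sub h1 hrM
        rwa [sub_sub_sub_cancel_right] at this
      have h4 : (∏ i ∈ S, P i) ∣ u - r := by
        apply Finset.prod_dvd_of_coprime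
        · intro i _ j _ hij
          exact hPc i j hij
        · intro i hi
          have hDi : D i ≠ none := (Finset.mem_filter.1 hi).2
          obtain ⟨k, hk⟩ := Option.ne_none_iff_exists'.1 hDi
          have h5 := h2 i hDi
          rw [hk, colF_eq (hinj i)] at h5
          have := dvd_sub h5 (hrP i hi k hk)
          rwa [add_sub_add_right_eq_sub] at this
      refine IsCoprime.mul_dvd ?_ h3 h4
      exact IsCoprime.prod_right (fun i _ => hMc i)
    · intro h1
      have h3 : M ∣ u - r := (dvd_mul_right _ _).trans h1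
      refine ⟨?_, ?_⟩
      · have := dvd_add h3 hrM
        rwa [sub_add_sub_cancel] at this
      · intro i hDi
        obtain ⟨k, hk⟩ := Option.ne_none_iff_exists'.1 hDi
        have hi : i ∈ S := Finset.mem_filter.2 ⟨Finset.mem_univ _, hDi⟩
        have h4 : P i ∣ u - r :=
          (Finset.dvd_prod_of_mem P hi).trans ((dvd_mul_left _ _).trans h1)
        rw [hk, colF_eq (hinj i)]
        have := dvd_add h4 (hrP i hi k hk)
        rwa [← add_assoc, sub_add_cancel] at this
  rw [hset]
  have h6 := card_PD_dvd (F := F) m₀ R hRm (by rw [hRd]; exact hdeg) r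
  rw [hRd] at h6
  rw [← h6]

theorem ff_cover (F : Type) [Field F] [Fintype F] : ∃ c : ℝ, 0 < c ∧ ∃ m₁ : ℕ, ∀ m₀ : ℕ,
    m₁ ≤ m₀ → ∀ L : ℝ, L = m₀ * Real.log (qr F) →
    ∀ (κ : Type) [Fintype κ] (sh : κ → F[X]), (Fintype.card κ : ℝ) ≤ c * L →
    (∀ P : F[X], Irreducible P → L ^ 2 < qr F ^ P.natDegree →
      ∀ k l, k ≠ l → ¬ P ∣ sh k - sh l) →
    ∀ (M b : F[X]), M.Monic → 2 * M.natDegree ≤ m₀ →
    (∀ P : F[X], Irreducible P → L ^ 2 < qr F ^ P.natDegree → ¬ P ∣ M) →
    ∃ u : F[X], u.degree < m₀ ∧ M ∣ u - b ∧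
      ∀ k, ∃ P : F[X], P.Monic ∧ Irreducible P ∧ L ^ 2 < qr F ^ P.natDegree ∧
        (P.natDegree : ℝ) * Real.log (qr F) ≤ L / (1000 * Real.log L) ∧ P ∣ u + sh k := by
  obtain ⟨c, hc, L₀, hcov⟩ := Pool.Agent.H525.AC.abscov 1 6 (by norm_num) (by norm_num)
  have hlq := log_qr_pos (F := F)
  have hq2 := two_le_qr F
  have hq0 := qr_pos F
  refine ⟨c, hc, ⌈(max L₀ (max (qr F) 100)) / Real.log (qr F)⌉₊, ?_⟩
  intro m₀ hm₀ L hL κ _ sh hκ hsh M b hM hMdeg hMP
  have hLbig : max L₀ (max (qr F) 100) ≤ L := by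
    rw [hL, ← div_le_iff₀ hlq]
    exact (Nat.le_ceil _).trans (by exact_mod_cast hm₀)
  have hLL₀ : L₀ ≤ L := (le_max_left _ _).trans hLbig
  have hLq : qr F ≤ L := ((le_max_left _ _).trans (le_max_right _ _)).trans hLbig
  have hL100 : 100 ≤ L := ((le_max_right _ _).trans (le_max_right _ _)).trans hLbig
  obtain ⟨z, hz1, hz2, hz0, hz3, hmain⟩ := hcov L hLL₀
  have hL0 : 0 < L := by linarith
  have hlogL : 1 ≤ Real.log L := by
    rw [Real.le_log_iff_exp_le hL0]
    have := Real.exp_one_lt_d9
    linarith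
  have hL2 : 1 ≤ L ^ 2 := by nlinarith
  have hzone : 1 ≤ z := hL2.trans hz3
  have hlL2 : Real.log (L ^ 2) = 2 * Real.log L := by rw [Real.log_pow]; norm_num
  have hlLq : Real.log (qr F) ≤ Real.log L := Real.log_le_log hq0 hLq
  set D : ℕ := ⌊Real.log (L ^ 2) / Real.log (qr F)⌋₊ with hD
  set K : ℕ := ⌊Real.log z / Real.log (qr F)⌋₊ with hK
  have hD1 : 1 ≤ D := by
    rw [hD]
    apply Nat.le_floor
    rw [Nat.cast_one, le_div_iff₀ hlq, hlL2]
    linarith
  have hDK : D ≤ K := by
    rw [hD, hK]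
    apply Nat.floor_le_floor
    apply div_le_div_of_nonneg_right _ hlq.le
    exact Real.log_le_log (by linarith) hz3
  have hK1 : 1 ≤ K := hD1.trans hDK
  have hKle : (K : ℝ) ≤ Real.log z / Real.log (qr F) :=
    Nat.floor_le (div_nonneg (Real.log_nonneg hzone) hlq.le)
  set PP := PrS F D K with hPP
  set p : Fin PP.card → ℝ := fun i => qr F ^ (enum PP i).natDegree with hp
  set g : Fin PP.card → ℝ := fun i => 1 / qr F ^ (enum PP i).natDegree with hg
  have hmem : ∀ i, (enum PP i).Monic ∧ Irreducible (enum PP i) ∧ D < (enum PP i).natDegree ∧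
      (enum PP i).natDegree ≤ K := fun i => mem_PrS.1 (enum_mem PP i)
  have hpL : ∀ i, L ^ 2 < p i := by
    intro i
    by_contra hc
    push Not at hc
    rw [hp] at hc
    have := (pow_le_iff hL2 _).1 hc
    have := (hmem i).2.2.1
    omega
  have hpz : ∀ i, p i ≤ z := fun i => (pow_le_iff hzone _).2 (hmem i).2.2.2
  have hp0 : ∀ i, 0 < p i := fun i => by rw [hp]; positivity
  -- the sums
  have hfl : ∀ w, L ^ 2 ≤ w → w ≤ z → ⌊Real.log w / Real.log (qr F)⌋₊ ≤ K ∧
      D ≤ ⌊Real.log w / Real.log (qr F)⌋₊ := by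
    intro w hw1 hw2
    constructor
    · apply Nat.floor_le_floor
      exact div_le_div_of_nonneg_right (Real.log_le_log (by linarith) hw2) hlq.le
    · apply Nat.floor_le_floor
      exact div_le_div_of_nonneg_right (Real.log_le_log (by linarith) hw1) hlq.le
  have hM1 : ∀ w, L ^ 2 ≤ w → w ≤ z →
      ∑ i with p i ≤ w, g i * Real.log (p i) ≤ 1 * Real.log w := by
    intro w hw1 hw2
    have hw : 1 ≤ w := hL2.trans hw1
    have h1 := sum_small (F := F) D K w hw (hfl w hw1 hw2).1
      (fun k => 1 / qr F ^ k * Real.log (qr F ^ k))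
    have h2 : ∑ i with p i ≤ w, g i * Real.log (p i) =
        ∑ i with qr F ^ (enum (PrS F D K) i).natDegree ≤ w,
          1 / qr F ^ (enum (PrS F D K) i).natDegree *
            Real.log (qr F ^ (enum (PrS F D K) i).natDegree) := rfl
    rw [h2, h1, one_mul]
    set Kw := ⌊Real.log w / Real.log (qr F)⌋₊ with hKw
    have h3 : ∑ k ∈ Ioc D Kw, (NI F k : ℝ) * (1 / qr F ^ k * Real.log (qr F ^ k)) ≤
        ∑ k ∈ Ioc 0 Kw, Real.log (qr F) := by
      refine le_trans (Finset.sum_le_sum (fun k hk => ?_))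
        (Finset.sum_le_sum_of_subset_of_nonneg (s := Ioc D Kw)
          (fun k hk => by rw [mem_Ioc] at hk ⊢; omega) (fun k _ _ => hlq.le))
      rw [mem_Ioc] at hk
      have h4 := NI_real_le (F := F) k (by omega)
      have hk0 : (0:ℝ) < k := by exact_mod_cast (by omega : 0 < k)
      rw [Real.log_pow]
      calc (NI F k : ℝ) * (1 / qr F ^ k * (k * Real.log (qr F)))
          = (NI F k : ℝ) / qr F ^ k * (k * Real.log (qr F)) := by ring
        _ ≤ 1 / k * (k * Real.log (qr F)) := mul_le_mul_of_nonneg_right h4 (by positivity)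
        _ = Real.log (qr F) := by field_simp
    refine h3.trans ?_
    rw [Finset.sum_const, Nat.card_Ioc, nsmul_eq_mul, Nat.sub_zero]
    rw [← le_div_iff₀ hlq]
    exact Nat.floor_le (div_nonneg (Real.log_nonneg hw) hlq.le)
  have hM2 : ∀ w, L ^ 2 ≤ w → w ≤ z →
      Real.log (Real.log w / Real.log (L ^ 2)) - 6 ≤ ∑ i with p i ≤ w, g i := by
    intro w hw1 hw2
    have hw : 1 ≤ w := hL2.trans hw1
    obtain ⟨hf1, hf2⟩ := hfl w hw1 hw2
    have h1 := sum_small (F := F) D K w hw hf1 (fun k => 1 / qr F ^ k)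
    have h2 : ∑ i with p i ≤ w, g i =
        ∑ i with qr F ^ (enum (PrS F D K) i).natDegree ≤ w,
          1 / qr F ^ (enum (PrS F D K) i).natDegree := rfl
    rw [h2, h1]
    set Kw := ⌊Real.log w / Real.log (qr F)⌋₊ with hKw
    have h3 := sum_NI_ge (F := F) D Kw hf2
    have h4 : ∑ k ∈ Ioc D Kw, (NI F k : ℝ) * (1 / qr F ^ k) =
        ∑ k ∈ Ioc D Kw, (NI F k : ℝ) / qr F ^ k := by
      apply Finset.sum_congr rfl; intro k _; rw [mul_one_div]
    rw [h4]
    refine le_trans ?_ h3
    have h5 : Real.log w / Real.log (qr F) ≤ (Kw:ℝ) + 1 := (Nat.lt_floor_add_one _).le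
    have h6 : (D:ℝ) + 1 ≤ 2 * (Real.log (L ^ 2) / Real.log (qr F)) := by
      have h7 : (D:ℝ) ≤ Real.log (L ^ 2) / Real.log (qr F) :=
        Nat.floor_le (div_nonneg (Real.log_nonneg hL2) hlq.le)
      have h8 : (1:ℝ) ≤ D := by exact_mod_cast hD1
      linarith
    have hlw : 0 < Real.log w := by
      have : Real.log (L ^ 2) ≤ Real.log w := Real.log_le_log (by linarith) hw1
      rw [hlL2] at this
      linarith
    have hlL2pos : 0 < Real.log (L ^ 2) := by rw [hlL2]; linarith
    have h9 : Real.log w / Real.log (L ^ 2) / 2 ≤ ((Kw:ℝ) + 1) / ((D:ℝ) + 1) := by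
      rw [le_div_iff₀ (by positivity)]
      calc Real.log w / Real.log (L ^ 2) / 2 * ((D:ℝ) + 1)
          ≤ Real.log w / Real.log (L ^ 2) / 2 * (2 * (Real.log (L ^ 2) / Real.log (qr F))) :=
            mul_le_mul_of_nonneg_left h6 (by positivity)
        _ = Real.log w / Real.log (qr F) := by field_simp
        _ ≤ _ := h5
    have h10 := Real.log_le_log (by positivity) h9
    rw [Real.log_div (by positivity) (by norm_num)] at h10
    have h11 := Real.log_two_lt_d9
    linarith
  have hM3 : ∑ i, g i ≤ Real.log L + 6 := by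
    have h1 : ∑ i, g i = ∑ P ∈ PP, 1 / qr F ^ P.natDegree :=
      sum_enum PP (fun P => 1 / qr F ^ P.natDegree)
    rw [h1, hPP, sum_PrS (F := F) D K (fun k => 1 / qr F ^ k)]
    have h2 := sum_NI_le (F := F) D K hK1
    have h4 : ∑ k ∈ Ioc D K, (NI F k : ℝ) * (1 / qr F ^ k) =
        ∑ k ∈ Ioc D K, (NI F k : ℝ) / qr F ^ k := by
      apply Finset.sum_congr rfl; intro k _; rw [mul_one_div]
    rw [h4]
    have h5 : Real.log K ≤ Real.log L := by
      apply Real.log_le_log (by exact_mod_cast (by omega : 0 < K))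
      refine hKle.trans ?_
      rw [div_le_iff₀ hlq]
      refine hz2.trans ?_
      have h6 : L / (1000 * Real.log L) ≤ L / 1000 := by
        apply div_le_div_of_nonneg_left hL0.le (by norm_num)
        linarith
      have h7 : (1:ℝ) / 1000 ≤ Real.log (qr F) := by
        have h8 : Real.log 2 ≤ Real.log (qr F) := Real.log_le_log (by norm_num) hq2
        have h9 := Real.log_two_gt_d9
        linarith
      nlinarith
    linarith
  have hM4 : ((PP.card : ℕ) : ℝ) + 1 ≤ z ^ 2 := by
    have h1 := card_PrS_le (F := F) D K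
    have h2 : qr F ^ K ≤ z := (pow_le_iff hzone K).2 le_rfl
    have h3 : (100:ℝ) ≤ z := by nlinarith
    nlinarith
  -- the family
  have hirr : ∀ i, ∀ k l, k ≠ l → ¬ enum PP i ∣ sh k - sh l := fun i =>
    hsh (enum PP i) (hmem i).2.1 (hpL i)
  obtain ⟨u, hu, hcol⟩ := hmain PP.card p g hpL hpz (fun i => le_rfl)
    (fun i => div_le_div_of_nonneg_right (by norm_num) (hp0 i).le) hM1 hM2 hM3 hM4 κ hκ F[X]
    ((PD F m₀).filter (fun u => M ∣ u - b)) (fun u i => colF (enum PP i) sh u)
    (qr F ^ (m₀ - M.natDegree)) 0 (by positivity) le_rfl (by rw [zero_mul]; positivity)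
    (by
      intro Dc hDc
      have hqq : qq p Dc = qr F ^ (∑ i with Dc i ≠ none, (enum PP i).natDegree) := by
        unfold qq
        rw [prod_nu1, Finset.prod_pow_eq_pow_sum]
        rfl
      have hdeg : 10 * (∑ i with Dc i ≠ none, (enum PP i).natDegree) ≤ m₀ := by
        rw [hqq] at hDc
        have h1 := Real.log_le_log (by positivity) hDc
        rw [Real.log_exp, Real.log_pow, hL] at h1
        have h2 : (10 * (∑ i with Dc i ≠ none, (enum PP i).natDegree : ℕ) : ℝ) *
            Real.log (qr F) ≤ m₀ * Real.log (qr F) := by linarith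
        have h3 := le_of_mul_le_mul_right h2 hlq
        exact_mod_cast h3
      have h1 := event_card (fun i => enum PP i) (fun i => (hmem i).1)
        (fun i j hij => coprime_of_mem (enum_mem PP i) (enum_mem PP j)
          (fun h => hij (enum_inj PP h))) sh hirr M b hM
        (fun i => ((Irreducible.coprime_iff_not_dvd (hmem i).2.1).2
          (hMP _ (hmem i).2.1 (hpL i))).symm) m₀ Dc (by omega)
      rw [h1]
      have h2 : nu g Dc = 1 / qr F ^ (∑ i with Dc i ≠ none, (enum PP i).natDegree) := by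
        unfold nu
        rw [prod_nu1, hg]
        simp only [one_div, Finset.prod_inv_distrib]
        rw [Finset.prod_pow_eq_pow_sum]
        rfl
      rw [h2]
      have h3 : ((Fintype.card F ^ (m₀ - (M.natDegree + ∑ i with Dc i ≠ none,
          (enum PP i).natDegree)) : ℕ) : ℝ) = qr F ^ (m₀ - M.natDegree) *
            (1 / qr F ^ (∑ i with Dc i ≠ none, (enum PP i).natDegree)) := by
        rw [mul_one_div, eq_div_iff (by positivity)]
        push_cast
        change qr F ^ _ * _ = _
        rw [← pow_add]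
        congr 1
        omega
      rw [h3, sub_self, abs_zero])
  rw [mem_filter, mem_PD] at hu
  refine ⟨u, hu.1, hu.2, ?_⟩
  intro k
  obtain ⟨i, hi⟩ := hcol k
  rw [colF_eq (hirr i)] at hi
  refine ⟨enum PP i, (hmem i).1, (hmem i).2.1, hpL i, ?_, hi⟩
  refine le_trans ?_ hz2
  rw [← Real.log_pow]
  exact Real.log_le_log (hp0 i) (hpz i)

end Pool.Agent.H525.FF
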