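import Pool.Agent.H525.FF.Main

set_option autoImplicit false

/-! # Long prime-free discs of polynomials over a finite field: the theorem -/

namespace Pool.Agent.H525.FF

open Polynomial Finset Filter

open scoped Classical

theorem main (F : Type) [Field F] [Fintype F] (ε : ℝ) (hε : 0 < ε) : ∃ c : ℝ, 0 < c ∧
    ∃ N : ℕ, ∀ n : ℕ, N ≤ n → ∀ g : F[X], g.natDegree = n →
      ∃ f : F[X], f.natDegree = n ∧ f.leadingCoeff = g.leadingCoeff ∧
        ((f - g).natDegree : ℝ) ≤ ε * n ∧
        ∀ h : F[X], (Fintype.card F : ℝ) ^ h.natDegree ≤ c * rec n →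
          ¬ Irreducible (f + h) ∧
          ∃ P : F[X], Irreducible P ∧ (P.natDegree : ℝ) ≤ n / Real.log n ∧ P ∣ f + h := by
  obtain ⟨c₁, hc₁, m₁, hcov⟩ := ff_cover F
  obtain ⟨C, hC, d₀, hsurv⟩ := survivors F
  set ε' : ℝ := min ε (1 / 2) with hε'
  have hε0 : 0 < ε' := lt_min hε (by norm_num)
  have hq₀ : 2 ≤ Fintype.card F := Fintype.one_lt_card
  obtain ⟨c, hc, N₀, hN₀⟩ := params (Fintype.card F) hq₀ ε' c₁ C hε0 (min_le_right _ _) hc₁ hC m₁ d₀
  refine ⟨c, hc, max N₀ 3, ?_⟩
  intro n hn g hg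
  obtain ⟨m₀, d, s, h1, h2, h3, h4, h5, h6, h7, h8, h9, h10, h11, h12, h13, h14, h15⟩ :=
    hN₀ n ((le_max_left _ _).trans hn)
  have hn3 : 3 ≤ n := (le_max_right _ _).trans hn
  have hq : ((Fintype.card F : ℕ) : ℝ) = qr F := rfl
  rw [hq] at h7 h8 h9 h10 h11 h14
  have hlq := log_qr_pos (F := F)
  have hqr := two_le_qr F
  set L : ℝ := m₀ * Real.log (qr F) with hL
  obtain ⟨b, hb⟩ := hsurv d h2 s h3
  set S : Finset F[X] := (PD F (d + s)).filter (fun h => ∀ P : F[X], P.Monic → Irreducible P →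
      P.natDegree ≤ d → ¬ P ∣ b + h) with hS
  have hSd : ∀ h ∈ S, h.degree < (d + s : ℕ) := by
    intro h hh
    rw [hS, mem_filter, mem_PD] at hh
    exact hh.1
  set M : F[X] := ∏ P ∈ PrS F 0 d, P with hM
  have hMm : M.Monic := monic_prod_of_monic _ _ (fun P hP => (mem_PrS.1 hP).1)
  have hMd : 2 * M.natDegree ≤ m₀ := by
    have e1 := degree_prod_le (F := F) 0 d
    rw [← hM] at e1
    omega
  have hqd : qr F ^ d ≤ L ^ 2 := by
    have e1 : ((Fintype.card F ^ d : ℕ) : ℝ) ≤ ((m₀ / 4 : ℕ) : ℝ) := by exact_mod_cast h6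
    have e2 : ((m₀ / 4 : ℕ) : ℝ) ≤ (m₀ : ℝ) / 4 := Nat.cast_div_le
    have e3 : ((Fintype.card F ^ d : ℕ) : ℝ) = qr F ^ d := by unfold qr; push_cast; rfl
    rw [e3] at e1
    have e4 : (m₀:ℝ) ≤ n := by
      have : ε' * n ≤ 1 * n := by
        apply mul_le_mul_of_nonneg_right _ (Nat.cast_nonneg n)
        have : ε' ≤ 1 / 2 := min_le_right _ _
        linarith
      linarith
    have e5 : (0:ℝ) ≤ m₀ := Nat.cast_nonneg _
    linarith
  have hcard : (Fintype.card S : ℝ) ≤ c₁ * L := by
    rw [Fintype.card_coe]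
    exact hb.trans h11
  obtain ⟨u, hu1, hu2, hu3⟩ := hcov m₀ h1 L hL S (fun k => g + (k : F[X])) hcard
    (by
      intro P hP hPL k l hkl hd
      have e1 : (k : F[X]) - (l : F[X]) ≠ 0 := fun h => hkl (Subtype.ext (sub_eq_zero.1 h))
      have e2 : P ∣ (k : F[X]) - (l : F[X]) := by
        have : g + (k : F[X]) - (g + (l : F[X])) = (k : F[X]) - (l : F[X]) := by ring
        rwa [this] at hd
      have e3 := natDegree_le_of_dvd e2 e1
      have e4 : ((k : F[X]) - (l : F[X])).degree < (d + s : ℕ) := by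
        exact lt_of_le_of_lt (degree_sub_le _ _) (max_lt (hSd _ k.2) (hSd _ l.2))
      rw [degree_eq_natDegree e1] at e4
      have e5 : ((k : F[X]) - (l : F[X])).natDegree < d + s := by exact_mod_cast e4
      have e6 : qr F ^ P.natDegree ≤ qr F ^ (d + s - 1) :=
        pow_le_pow_right₀ (by linarith) (by omega)
      linarith [h8.trans h9])
    M (b - g) hMm hMd
    (by
      intro P hP hPL hPM
      obtain ⟨Q, hQ, hPQ⟩ := (Prime.dvd_finsetProd_iff hP.prime _).1 hPM
      rw [mem_PrS] at hQ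
      have e1 := natDegree_le_of_dvd hPQ hQ.1.ne_zero
      have e2 : qr F ^ P.natDegree ≤ qr F ^ d := pow_le_pow_right₀ (by linarith) (by omega)
      linarith)
  have hun : u.degree < (n : ℕ) := by
    refine lt_of_lt_of_le hu1 ?_
    have e1 : (m₀ : ℝ) ≤ n := by
      have : ε' * n ≤ 1 * n := by
        apply mul_le_mul_of_nonneg_right _ (Nat.cast_nonneg n)
        have : ε' ≤ 1 / 2 := min_le_right _ _
        linarith
      linarith
    exact_mod_cast e1
  have hg0 : g ≠ 0 := by
    rintro rfl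
    rw [natDegree_zero] at hg
    omega
  have hgd : g.degree = (n : ℕ) := by rw [degree_eq_natDegree hg0, hg]
  refine ⟨g + u, ?_, ?_, ?_, ?_⟩
  · rw [natDegree_add_eq_left_of_degree_lt (by rw [hgd]; exact hun), hg]
  · rw [leadingCoeff_add_of_degree_lt' (by rw [hgd]; exact hun)]
  · rw [add_sub_cancel_left]
    have e1 : (u.natDegree : ℝ) ≤ m₀ := by
      by_cases hu0 : u = 0
      · rw [hu0, natDegree_zero]
        exact_mod_cast Nat.zero_le _
      · rw [degree_eq_natDegree hu0] at hu1
        have : u.natDegree < m₀ := by exact_mod_cast hu1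
        exact_mod_cast this.le
    have e2 : ε' * n ≤ ε * n := mul_le_mul_of_nonneg_right (min_le_left _ _) (Nat.cast_nonneg n)
    linarith
  · intro h hh
    rw [hq] at hh
    have hhm : h.natDegree < d + s := by
      by_contra hcon
      push Not at hcon
      have : qr F ^ (d + s) ≤ qr F ^ h.natDegree := pow_le_pow_right₀ (by linarith) hcon
      linarith
    have hhd : h.degree < (d + s : ℕ) := by
      by_cases h0 : h = 0
      · rw [h0, degree_zero]; exact WithBot.bot_lt_coe _
      · rw [degree_eq_natDegree h0]; exact_mod_cast hhm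
    have key : ∃ P : F[X], Irreducible P ∧ (P.natDegree : ℝ) ≤ n / Real.log n ∧
        P ∣ g + u + h := by
      by_cases hhS : h ∈ S
      · obtain ⟨P, e1, e2, e3, e4, e5⟩ := hu3 ⟨h, hhS⟩
        refine ⟨P, e2, ?_, ?_⟩
        · have e6 : (P.natDegree : ℝ) * Real.log (qr F) ≤ n / Real.log n * Real.log (qr F) :=
            e4.trans h14
          exact le_of_mul_le_mul_right e6 hlq
        · have : u + (g + h) = g + u + h := by ring
          rw [← this]
          exact e5
      · rw [hS, mem_filter, mem_PD] at hhS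
        have e1 : ¬ ∀ P : F[X], P.Monic → Irreducible P → P.natDegree ≤ d → ¬ P ∣ b + h :=
          fun e => hhS ⟨hhd, e⟩
        push Not at e1
        obtain ⟨P, e2, e3, e4, e5⟩ := e1
        refine ⟨P, e3, ?_, ?_⟩
        · have : (P.natDegree : ℝ) ≤ d := by exact_mod_cast e4
          linarith
        · have e6 : P ∣ M := Finset.dvd_prod_of_mem (fun P => P)
            (mem_PrS.2 ⟨e2, e3, Irreducible.natDegree_pos e3, e4⟩)
          have e7 := dvd_add (e6.trans hu2) e5
          have : u - (b - g) + (b + h) = g + u + h := by ring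
          rwa [this] at e7
    refine ⟨?_, key⟩
    obtain ⟨P, e1, e2, e3⟩ := key
    intro hirr
    have e4 : Associated P (g + u + h) := e1.associated_of_dvd hirr e3
    have e5 : (g + u + h).natDegree = n := by
      have e6 : (g + u + h) = g + (u + h) := by ring
      rw [e6, natDegree_add_eq_left_of_degree_lt, hg]
      rw [hgd]
      refine lt_of_le_of_lt (degree_add_le _ _) (max_lt hun ?_)
      exact lt_trans hhd (by exact_mod_cast h12)
    have e6 : P.natDegree = n := by
      rw [← e5]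
      exact natDegree_eq_of_degree_eq (degree_eq_degree_of_associated e4)
    rw [e6] at e2
    linarith

end Pool.Agent.H525.FF
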