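import Pool.Agent.H525.FF.Sieve
import Pool.Agent.H525.FF.Cov

set_option autoImplicit false

/-! # Long prime-free discs of polynomials over a finite field -/

namespace Pool.Agent.H525.FF

open Polynomial Finset Filter

open scoped Classical

/-- `x (log x)² log₃ x / (log₂ x)²` -/
noncomputable def rec (x : ℝ) : ℝ :=
  x * (Real.log x) ^ 2 * Real.log (Real.log (Real.log x)) / (Real.log (Real.log x)) ^ 2

/-- numerical facts -/
theorem ev_main (c ε q B : ℝ) (hc : 0 < c) (hε : 0 < ε) (hq : 0 < q) : ∃ N₀ : ℕ, ∀ n : ℕ, N₀ ≤ n →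
    ∀ x l1 l2 l3 : ℝ, x = n → l1 = Real.log x → l2 = Real.log l1 → l3 = Real.log l2 →
    2 ≤ l3 ∧ 16 ≤ l2 ∧ l3 ≤ l2 ∧ 8 * l2 ≤ l1 ∧ B ≤ l1 ∧ B ≤ l2 ∧ B ≤ x ∧ l2 ^ 2 ≤ c * l1 ^ 2 ∧
      8 * l1 ≤ x ∧ l1 ^ 2 ≤ ε * x := by
  have t1 : Tendsto (fun n : ℕ => (n:ℝ)) atTop atTop := tendsto_natCast_atTop_atTop
  have t2 := Real.tendsto_log_atTop.comp t1
  have t3 := Real.tendsto_log_atTop.comp t2
  have t4 := Real.tendsto_log_atTop.comp t3
  have a1 := t4.eventually_ge_atTop 2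
  have a2 := t3.eventually_ge_atTop 16
  have a3 : ∀ᶠ y : ℝ in atTop, 8 * Real.log y ≤ y := by
    have e1 := Real.isLittleO_log_id_atTop.def (show (0:ℝ) < 1 / 8 by norm_num)
    filter_upwards [e1, eventually_ge_atTop (1:ℝ)] with L hL hL1
    rw [Real.norm_eq_abs, abs_of_nonneg (Real.log_nonneg hL1), Real.norm_eq_abs] at hL
    simp only [id] at hL
    rw [abs_of_nonneg (by linarith)] at hL
    linarith
  have a5 := t2.eventually_ge_atTop B
  have a6 := t3.eventually_ge_atTop B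
  have a7 := t1.eventually_ge_atTop B
  have a8 : ∀ k : ℝ, 0 < k → ∀ᶠ y : ℝ in atTop, (Real.log y) ^ 2 ≤ k * y ^ 2 := by
    intro k hk
    have e1 := Real.isLittleO_log_id_atTop.def (show (0:ℝ) < Real.sqrt k by positivity)
    filter_upwards [e1, eventually_ge_atTop (1:ℝ)] with L hL hL1
    rw [Real.norm_eq_abs, abs_of_nonneg (Real.log_nonneg hL1), Real.norm_eq_abs] at hL
    simp only [id] at hL
    rw [abs_of_nonneg (by linarith)] at hL
    have h2 := pow_le_pow_left₀ (Real.log_nonneg hL1) hL 2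
    rwa [mul_pow, Real.sq_sqrt hk.le] at h2
  have a9 : ∀ᶠ y : ℝ in atTop, (Real.log y) ^ 2 ≤ ε * y := by
    have e1 : (fun L : ℝ => (Real.log L) ^ (2:ℝ)) =o[atTop] (fun L : ℝ => L ^ (1 : ℝ)) :=
      isLittleO_log_rpow_rpow_atTop 2 (by norm_num)
    have e2 := e1.def hε
    filter_upwards [e2, eventually_ge_atTop (1:ℝ)] with L hL hL2
    rw [Real.norm_eq_abs, Real.norm_eq_abs,
      abs_of_nonneg (Real.rpow_nonneg (Real.log_nonneg hL2) _),
      abs_of_nonneg (Real.rpow_nonneg (by linarith) _), Real.rpow_one] at hL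
    have e3 : (Real.log L) ^ (2:ℝ) = (Real.log L) ^ 2 := by
      rw [← Real.rpow_natCast]; norm_num
    rwa [e3] at hL
  have b1 := t3.eventually a3
  have b2 := t2.eventually a3
  have b3 := t1.eventually a3
  have b4 := t2.eventually (a8 c hc)
  have b5 := t1.eventually a9
  have h := ((((((((a1.and a2).and b1).and b2).and b3).and a5).and a6).and a7).and b4).and b5
  obtain ⟨N₀, hN₀⟩ := Filter.eventually_atTop.mp h
  refine ⟨N₀, ?_⟩
  rintro n hn x l1 l2 l3 rfl rfl rfl rfl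
  obtain ⟨⟨⟨⟨⟨⟨⟨⟨⟨c1, c2⟩, c3⟩, c4⟩, c5⟩, c6⟩, c7⟩, c8⟩, c9⟩, c10⟩ := hN₀ n hn
  simp only [Function.comp] at c1 c2 c3 c4 c5 c6 c7 c8 c9 c10
  refine ⟨c1, c2, ?_, c4, c6, c7, c8, c9, c5, c10⟩
  have : 0 ≤ Real.log (Real.log (Real.log (n:ℝ))) := by linarith
  linarith

/-- all the parameters -/
theorem params (q₀ : ℕ) (hq₀ : 2 ≤ q₀) (ε c₁ C : ℝ) (hε : 0 < ε) (hε2 : ε ≤ 1 / 2) (hc₁ : 0 < c₁)
    (hC : 0 < C) (A₁ A₂ : ℕ) : ∃ c : ℝ, 0 < c ∧ ∃ N₀ : ℕ, ∀ n : ℕ, N₀ ≤ n → ∃ m₀ d s : ℕ,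
      A₁ ≤ m₀ ∧ A₂ ≤ d ∧ 1 ≤ s ∧ (m₀ : ℝ) ≤ ε * n ∧ 1 ≤ m₀ ∧ q₀ ^ d ≤ m₀ / 4 ∧
      c * rec n < (q₀ : ℝ) ^ (d + s) ∧ (q₀ : ℝ) ^ (d + s - 1) ≤ c * rec n ∧
      c * rec n ≤ (m₀ * Real.log q₀) ^ 2 ∧ (n : ℝ) ≤ (m₀ * Real.log q₀) ^ 2 ∧
      C * ((q₀ : ℝ) ^ (d + s) * s * Real.log d / (d ^ 2 * Real.log (Real.log d))) ≤
        c₁ * (m₀ * Real.log q₀) ∧ d + s < n ∧ (d : ℝ) ≤ n / Real.log n ∧
      m₀ * Real.log q₀ / (1000 * Real.log (m₀ * Real.log q₀)) ≤ n / Real.log n * Real.log q₀ ∧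
      (n : ℝ) / Real.log n < n := by
  have hqR : (2:ℝ) ≤ (q₀:ℝ) := by exact_mod_cast hq₀
  set q : ℝ := (q₀:ℝ) with hq
  have hq0 : 0 < q := by linarith
  have hlq : 1 / 2 ≤ Real.log q := by
    have h1 : Real.log 2 ≤ Real.log q := Real.log_le_log (by norm_num) hqR
    have h2 := Real.log_two_gt_d9
    linarith
  have hlq0 : 0 < Real.log q := by linarith
  set a : ℝ := 1 / (4 * Real.log q) with ha
  have ha0 : 0 < a := by positivity
  set c : ℝ := min (min (ε / (8 * q)) (c₁ * ε * a ^ 2 / (80 * C * q))) 1 with hc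
  have hc0 : 0 < c := by
    rw [hc]
    refine lt_min (lt_min (by positivity) (by positivity)) one_pos
  have hcA : c ≤ ε / (8 * q) := (min_le_left _ _).trans (min_le_left _ _)
  have hcB : c ≤ c₁ * ε * a ^ 2 / (80 * C * q) := (min_le_left _ _).trans (min_le_right _ _)
  have hcC : c ≤ 1 := min_le_right _ _
  set B : ℝ := max (max (max (2 * Real.log (8 / ε)) (4 * Real.log q)) (max (-(2 * Real.log a))
    ((A₂ + 1) / a))) (max (2 * (A₁ + 1) / ε) (max (8 / ε) 16)) with hB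
  have hB1 : 2 * Real.log (8 / ε) ≤ B := le_trans (le_max_left _ _) (le_trans (le_max_left _ _)
    (le_max_left _ _))
  have hB2 : 4 * Real.log q ≤ B := le_trans (le_max_right _ _) (le_trans (le_max_left _ _)
    (le_max_left _ _))
  have hB3 : -(2 * Real.log a) ≤ B := le_trans (le_max_left _ _) (le_trans (le_max_right _ _)
    (le_max_left _ _))
  have hB4 : (A₂ + 1) / a ≤ B := le_trans (le_max_right _ _) (le_trans (le_max_right _ _)
    (le_max_left _ _))
  have hB5 : 2 * (A₁ + 1) / ε ≤ B := le_trans (le_max_left _ _) (le_max_right _ _)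
  have hB6 : 8 / ε ≤ B := le_trans (le_max_left _ _) (le_trans (le_max_right _ _)
    (le_max_right _ _))
  have hB7 : 16 ≤ B := le_trans (le_max_right _ _) (le_trans (le_max_right _ _)
    (le_max_right _ _))
  obtain ⟨N₀, hN₀⟩ := ev_main c (ε ^ 2 / 16) q B hc0 (by positivity) hq0
  refine ⟨c, hc0, N₀, ?_⟩
  intro n hn
  obtain ⟨f1, f2, f3, f4, f5, f6, f7, f8, f9, f10⟩ := hN₀ n hn n _ _ _ rfl rfl rfl rfl
  set x : ℝ := (n:ℝ) with hx
  set l1 : ℝ := Real.log x with hl1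
  set l2 : ℝ := Real.log l1 with hl2
  set l3 : ℝ := Real.log l2 with hl3
  have hl20 : 0 < l2 := by linarith
  have hl10 : 128 ≤ l1 := by linarith
  have hx16 : 16 ≤ x := by linarith
  have hx0 : 0 < x := by linarith
  have hrec : rec x = x * l1 ^ 2 * l3 / l2 ^ 2 := rfl
  -- `m₀`
  set m₀ : ℕ := ⌊ε * x⌋₊ with hm₀
  have hm1 : (m₀:ℝ) ≤ ε * x := Nat.floor_le (by positivity)
  have hεx : 8 ≤ ε * x := by
    have := hB6.trans f7
    rw [div_le_iff₀ hε] at this
    linarith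
  have hm2 : ε * x / 2 ≤ m₀ := by
    have := Nat.lt_floor_add_one (ε * x)
    rw [← hm₀] at this
    linarith
  have hm4 : (4:ℝ) ≤ m₀ := by linarith
  have hm4n : 4 ≤ m₀ := by exact_mod_cast hm4
  have hmA : A₁ ≤ m₀ := by
    have h1 := hB5.trans f7
    rw [div_le_iff₀ hε] at h1
    have h2 : (A₁:ℝ) ≤ m₀ := by linarith
    exact_mod_cast h2
  -- `d`
  have hm40 : m₀ / 4 ≠ 0 := by omega
  set d : ℕ := Nat.log q₀ (m₀ / 4) with hd
  have hd1 : q₀ ^ d ≤ m₀ / 4 := Nat.pow_log_le_self q₀ hm40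
  have hd2 : m₀ / 4 < q₀ ^ (d + 1) := Nat.lt_pow_succ_log_self (by omega) _
  have hd3 : q ^ d ≤ x / 8 := by
    have h1 : ((q₀ ^ d : ℕ) : ℝ) ≤ ((m₀ / 4 : ℕ) : ℝ) := by exact_mod_cast hd1
    have h2 : ((m₀ / 4 : ℕ) : ℝ) ≤ (m₀ : ℝ) / 4 := Nat.cast_div_le
    push_cast at h1
    have h3 : ε * x ≤ x / 2 := by nlinarith only [hε2, hx0]
    have h4 : q ^ d ≤ ((m₀ / 4 : ℕ) : ℝ) := by rw [hq]; exact h1
    linarith only [h2, h3, h4, hm1]
  have hd4 : ε * x / 8 ≤ q ^ (d + 1) := by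
    have h1 : ((m₀ / 4 + 1 : ℕ) : ℝ) ≤ ((q₀ ^ (d + 1) : ℕ) : ℝ) := by exact_mod_cast hd2
    have h2 : (m₀:ℝ) / 4 ≤ ((m₀ / 4 + 1 : ℕ) : ℝ) := by
      have h3 : m₀ ≤ 4 * (m₀ / 4 + 1) := by omega
      have h4 : (m₀:ℝ) ≤ 4 * ((m₀ / 4 + 1 : ℕ) : ℝ) := by exact_mod_cast h3
      linarith
    push_cast at h1 h2
    have h5 : (m₀:ℝ) / 4 ≤ q ^ (d + 1) := by rw [hq]; linarith
    linarith
  have hd5 : a * l1 ≤ d := by
    have h1 : Real.log (ε * x / 8) ≤ (d + 1) * Real.log q := by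
      have := Real.log_le_log (by positivity) hd4
      rw [Real.log_pow] at this
      push_cast at this
      exact this
    have h2 : Real.log (ε * x / 8) = l1 - Real.log (8 / ε) := by
      have : ε * x / 8 = x / (8 / ε) := by field_simp
      rw [this, Real.log_div hx0.ne' (by positivity)]
    have h3 : l1 / 2 ≤ (d + 1) * Real.log q := by linarith
    have h4 : 2 * (a * l1) ≤ d + 1 := by
      have h5 : 2 * (a * l1) = l1 / 2 / Real.log q := by rw [ha]; field_simp; norm_num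
      rw [h5, div_le_iff₀ hlq0]
      exact h3
    have h6 : 1 ≤ a * l1 := by
      rw [ha, one_div, inv_mul_eq_div, le_div_iff₀ (by positivity)]
      linarith
    linarith
  have hd6 : (d:ℝ) ≤ 2 * l1 := by
    have h1 : (d:ℝ) * Real.log q ≤ l1 := by
      rw [← Real.log_pow, hl1]
      apply Real.log_le_log (by positivity)
      linarith
    nlinarith only [h1, hlq, Nat.cast_nonneg (α := ℝ) d]
  have hdA : A₂ ≤ d := by
    have h1 := hB4.trans f5
    rw [div_le_iff₀ ha0] at h1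
    have h2 : (A₂:ℝ) ≤ d := by linarith
    exact_mod_cast h2
  have hal : 0 < a * l1 := by positivity
  have hd0 : (0:ℝ) < d := by linarith
  -- `W` and `m`
  set W : ℝ := c * rec x with hW
  have hWx : x ≤ W := by
    rw [hW, hrec, ← mul_div_assoc, le_div_iff₀ (by positivity)]
    have h1 : x * l2 ^ 2 ≤ x * (c * l1 ^ 2) := mul_le_mul_of_nonneg_left f8 hx0.le
    have h2 : 0 ≤ x * (c * l1 ^ 2) := by positivity
    have h3 : x * (c * l1 ^ 2) ≤ x * (c * l1 ^ 2) * l3 := by nlinarith only [h2, f1]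
    linarith only [h1, h3]
  have hW0 : 0 < W := by linarith
  have hWfl : ⌊W⌋₊ ≠ 0 := by
    have : 1 ≤ ⌊W⌋₊ := Nat.le_floor (by push_cast; linarith)
    omega
  set k : ℕ := Nat.log q₀ ⌊W⌋₊ with hk
  have hk1 : q ^ k ≤ W := by
    have h1 : q₀ ^ k ≤ ⌊W⌋₊ := Nat.pow_log_le_self q₀ hWfl
    calc q ^ k = ((q₀ ^ k : ℕ) : ℝ) := by rw [hq]; push_cast; rfl
      _ ≤ (⌊W⌋₊ : ℝ) := by exact_mod_cast h1
      _ ≤ W := Nat.floor_le hW0.le
  have hk2 : W < q ^ (k + 1) := by
    have h1 : ⌊W⌋₊ < q₀ ^ (k + 1) := Nat.lt_pow_succ_log_self (by omega) _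
    have h2 : ⌊W⌋₊ + 1 ≤ q₀ ^ (k + 1) := h1
    calc W < (⌊W⌋₊ : ℝ) + 1 := Nat.lt_floor_add_one W
      _ ≤ ((q₀ ^ (k + 1) : ℕ) : ℝ) := by exact_mod_cast h2
      _ = q ^ (k + 1) := by rw [hq]; push_cast; rfl
  have hdk : d ≤ k := by
    by_contra hc
    push Not at hc
    have h1 : q ^ (k + 1) ≤ q ^ d := pow_le_pow_right₀ (by linarith) hc
    linarith
  obtain ⟨r, hr⟩ := Nat.exists_eq_add_of_le hdk
  have hr1 : (r:ℝ) ≤ 4 * l2 := by
    have h1 : q ^ r * q ^ d ≤ W := by rw [← pow_add, add_comm, ← hr]; exact hk1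
    have h2 : ε * x / (8 * q) ≤ q ^ d := by
      rw [pow_succ] at hd4
      rw [div_le_iff₀ (by positivity)]
      linarith
    have h3 : q ^ r * (ε * x / (8 * q)) ≤ W :=
      (mul_le_mul_of_nonneg_left h2 (by positivity)).trans h1
    have h4 : W ≤ ε * x / (8 * q) * l1 ^ 2 := by
      rw [hW, hrec]
      have h5 : x * l1 ^ 2 * l3 / l2 ^ 2 ≤ x * l1 ^ 2 := by
        rw [div_le_iff₀ (by positivity)]
        apply mul_le_mul_of_nonneg_left _ (by positivity)
        nlinarith only [f2, f3]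
      calc c * (x * l1 ^ 2 * l3 / l2 ^ 2) ≤ (ε / (8 * q)) * (x * l1 ^ 2) :=
            mul_le_mul hcA h5 (by positivity) (by positivity)
        _ = _ := by ring
    have h6 : q ^ r ≤ l1 ^ 2 := by
      have h7 := h3.trans h4
      have h8 : 0 < ε * x / (8 * q) := by positivity
      rw [mul_comm] at h7
      exact le_of_mul_le_mul_left h7 h8
    have h9 : (r:ℝ) * Real.log q ≤ 2 * l2 := by
      have := Real.log_le_log (by positivity) h6
      rw [Real.log_pow, Real.log_pow] at this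
      push_cast at this
      exact this
    nlinarith only [h9, hlq, Nat.cast_nonneg (α := ℝ) r]
  set s : ℕ := r + 1 with hs
  have hds : d + s = k + 1 := by omega
  have hs5 : (s:ℝ) ≤ 5 * l2 := by rw [hs]; push_cast; linarith
  set LL : ℝ := m₀ * Real.log q with hLL
  have hLL1 : ε * x / 4 ≤ LL := by
    have h1 : ε * x / 2 * (1 / 2) ≤ m₀ * Real.log q :=
      mul_le_mul hm2 hlq (by norm_num) (Nat.cast_nonneg _)
    rw [hLL]
    linarith only [h1]
  have hLL2 : (ε * x / 4) ^ 2 ≤ LL ^ 2 := pow_le_pow_left₀ (by positivity) hLL1 2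
  have hLLx : x * l1 ^ 2 ≤ LL ^ 2 := by
    refine le_trans ?_ hLL2
    have h1 : x * l1 ^ 2 ≤ x * (ε ^ 2 / 16 * x) := mul_le_mul_of_nonneg_left f10 hx0.le
    have h2 : x * (ε ^ 2 / 16 * x) = (ε * x / 4) ^ 2 := by ring
    linarith only [h1, h2]
  have hWl : W ≤ x * l1 ^ 2 := by
    rw [hW, hrec]
    have h5 : x * l1 ^ 2 * l3 / l2 ^ 2 ≤ x * l1 ^ 2 := by
      rw [div_le_iff₀ (by positivity)]
      apply mul_le_mul_of_nonneg_left _ (by positivity)
      nlinarith only [f2, f3]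
    have h6 : 0 ≤ x * l1 ^ 2 * l3 / l2 ^ 2 := by positivity
    nlinarith only [h5, h6, hcC]
  have hx1 : x ≤ x * l1 ^ 2 :=
    le_mul_of_one_le_right hx0.le (by nlinarith only [hl10])
  have hxl : 2 * l1 * l1 ≤ x := by
    have h1 : ε ^ 2 / 16 * x ≤ x / 64 := by
      have : ε ^ 2 ≤ 1 / 4 := by nlinarith only [hε, hε2]
      nlinarith only [this, hx0]
    nlinarith only [f10, h1, hx0]
  refine ⟨m₀, d, s, hmA, hdA, by omega, hm1, by omega, hd1, ?_, ?_, hWl.trans hLLx,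
    hx1.trans hLLx, ?_, ?_, ?_, ?_, ?_⟩
  · rw [hds]; exact hk2
  · have : d + s - 1 = k := by omega
    rw [this]; exact hk1
  · -- the number of survivors
    have g1 : q ^ (d + s) ≤ q * W := by
      rw [hds, pow_succ]
      nlinarith only [hk1, hq0]
    have g2 : Real.log d ≤ 2 * l2 := by
      have h1 := Real.log_le_log hd0 hd6
      rw [Real.log_mul (by norm_num) (by linarith)] at h1
      have h2 := Real.log_two_lt_d9
      linarith
    have g3 : l2 / 2 ≤ Real.log d := by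
      have h1 := Real.log_le_log hal hd5
      rw [Real.log_mul ha0.ne' (by linarith)] at h1
      linarith
    have g4 : l3 / 2 ≤ Real.log (Real.log d) := by
      have h1 := Real.log_le_log (by positivity) g3
      rw [Real.log_div (by linarith) (by norm_num)] at h1
      have h2 := Real.log_two_lt_d9
      linarith
    have g5 : q ^ (d + s) * s * Real.log d ≤ q * W * (5 * l2) * (2 * l2) := by
      apply mul_le_mul _ g2 (by linarith) (by positivity)
      exact mul_le_mul g1 hs5 (Nat.cast_nonneg _) (by positivity)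
    have g6 : (a * l1) ^ 2 * (l3 / 2) ≤ (d:ℝ) ^ 2 * Real.log (Real.log d) := by
      apply mul_le_mul _ g4 (by linarith) (by positivity)
      exact pow_le_pow_left₀ hal.le hd5 2
    have g7 : q ^ (d + s) * s * Real.log d / (d ^ 2 * Real.log (Real.log d)) ≤
        q * W * (5 * l2) * (2 * l2) / ((a * l1) ^ 2 * (l3 / 2)) := by
      apply div_le_div₀ (by positivity) g5 (by positivity) g6
    have g8 : q * W * (5 * l2) * (2 * l2) / ((a * l1) ^ 2 * (l3 / 2)) =
        20 * q * c * x / a ^ 2 := by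
      rw [hW, hrec]
      have : l3 ≠ 0 := by linarith
      field_simp
      ring
    rw [g8] at g7
    calc C * (q ^ (d + s) * s * Real.log d / (d ^ 2 * Real.log (Real.log d)))
        ≤ C * (20 * q * c * x / a ^ 2) := mul_le_mul_of_nonneg_left g7 hC.le
      _ ≤ C * (20 * q * (c₁ * ε * a ^ 2 / (80 * C * q)) * x / a ^ 2) := by
          apply mul_le_mul_of_nonneg_left _ hC.le
          apply div_le_div_of_nonneg_right _ (by positivity)
          apply mul_le_mul_of_nonneg_right _ hx0.le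
          exact mul_le_mul_of_nonneg_left hcB (by positivity)
      _ = c₁ * (ε * x / 4) := by field_simp; norm_num
      _ ≤ c₁ * LL := mul_le_mul_of_nonneg_left hLL1 hc₁.le
  · have h1 : ((d + s : ℕ) : ℝ) < (n:ℝ) := by
      push_cast
      have : (5:ℝ) * l2 ≤ l1 := by linarith
      calc (d:ℝ) + s ≤ 2 * l1 + 5 * l2 := add_le_add hd6 hs5
        _ < x := by linarith only [this, f9, hl10]
    exact_mod_cast h1
  · rw [le_div_iff₀ (by linarith)]
    nlinarith only [hd6, hxl, hl10]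
  · have h1 : l1 / 2 ≤ Real.log LL := by
      have h2 := Real.log_le_log (by positivity) hLL1
      have h3 : Real.log (ε * x / 4) = l1 - Real.log (4 / ε) := by
        have : ε * x / 4 = x / (4 / ε) := by field_simp
        rw [this, Real.log_div hx0.ne' (by positivity)]
      have h4 : Real.log (4 / ε) ≤ Real.log (8 / ε) := by
        apply Real.log_le_log (by positivity)
        exact div_le_div_of_nonneg_right (by norm_num) hε.le
      linarith
    have h2 : m₀ ≤ x := by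
      have : ε * x ≤ x := by nlinarith only [hε2, hx0]
      linarith only [this, hm1]
    have h5 : 0 < 1000 * Real.log LL := by linarith only [h1, hl10]
    have h6 : LL / (1000 * Real.log LL) ≤ x / l1 * Real.log q := by
      rw [div_mul_eq_mul_div, div_le_div_iff₀ h5 (by linarith only [hl10])]
      have h3 : LL * l1 ≤ x * Real.log q * l1 := by
        apply mul_le_mul_of_nonneg_right _ (by linarith only [hl10])
        exact mul_le_mul_of_nonneg_right h2 hlq0.le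
      refine h3.trans ?_
      apply mul_le_mul_of_nonneg_left _ (by positivity)
      linarith only [h1, hl10]
    exact h6
  · have h1 : x / l1 < x := by
      rw [div_lt_iff₀ (by linarith only [hl10])]
      nlinarith only [hl10, hx0]
    exact h1

end Pool.Agent.H525.FF
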