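import Pool.Agent.H525.FF.Count

set_option autoImplicit false

/-! # Sums over irreducible polynomials -/

namespace Pool.Agent.H525.FF

open Polynomial Finset

variable (F : Type) [Field F] [Fintype F]

/-- the number of elements of the field, as a real number -/
noncomputable def qr : ℝ := (Fintype.card F : ℝ)

theorem two_le_qr : 2 ≤ qr F := by
  unfold qr
  exact_mod_cast (Fintype.one_lt_card : 1 < Fintype.card F)

theorem qr_pos : 0 < qr F := by linarith [two_le_qr F]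

variable {F}

theorem NI_real_le (k : ℕ) (hk : 1 ≤ k) : (NI F k : ℝ) / qr F ^ k ≤ 1 / k := by
  have hk0 : (0:ℝ) < k := by exact_mod_cast hk
  rw [div_le_div_iff₀ (pow_pos (qr_pos F) k) hk0, one_mul]
  have := NI_le (F := F) k hk
  unfold qr
  rw [mul_comm]
  exact_mod_cast this

theorem half_pow_le (k : ℕ) : (1 / 2 : ℝ) ^ (k - k / 2) ≤ (71 / 100) ^ k := by
  have h1 : ((1 / 2 : ℝ) ^ (k - k / 2)) ^ 2 ≤ ((71 / 100 : ℝ) ^ k) ^ 2 := by
    rw [← pow_mul, ← pow_mul, mul_comm k 2, pow_mul (71 / 100 : ℝ) 2 k]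
    calc (1 / 2 : ℝ) ^ ((k - k / 2) * 2) ≤ (1 / 2 : ℝ) ^ k :=
          pow_le_pow_of_le_one (by norm_num) (by norm_num) (by omega)
      _ ≤ ((71 / 100 : ℝ) ^ 2) ^ k := pow_le_pow_left₀ (by norm_num) (by norm_num) k
  exact le_of_sq_le_sq h1 (by positivity)
where
  le_of_sq_le_sq {a b : ℝ} (h : a ^ 2 ≤ b ^ 2) (hb : 0 ≤ b) : a ≤ b := by
    by_contra hc
    push Not at hc
    nlinarith

theorem NI_real_ge (k : ℕ) (hk : 1 ≤ k) :
    1 / k - 2 * (71 / 100 : ℝ) ^ k ≤ (NI F k : ℝ) / qr F ^ k := by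
  have hk0 : (0:ℝ) < k := by exact_mod_cast hk
  have hk1 : (1:ℝ) ≤ k := by exact_mod_cast hk
  have hq := two_le_qr F
  have hq0 := qr_pos F
  have h1 : qr F ^ k ≤ k * NI F k + 2 * qr F ^ (k / 2) := by
    unfold qr
    exact_mod_cast NI_ge (F := F) k hk
  have h2 : qr F ^ (k / 2) = qr F ^ k * (1 / qr F) ^ (k - k / 2) := by
    rw [one_div, inv_pow]
    have : qr F ^ k = qr F ^ (k / 2) * qr F ^ (k - k / 2) := by
      rw [← pow_add]; congr 1; omega
    rw [this]
    field_simp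
  have h3 : (1 / qr F) ^ (k - k / 2) ≤ (71 / 100) ^ k := by
    refine le_trans ?_ (half_pow_le k)
    apply pow_le_pow_left₀ (by positivity)
    exact one_div_le_one_div_of_le (by norm_num) hq
  have hqk : 0 < qr F ^ k := by positivity
  rw [le_div_iff₀ hqk]
  have h4 : qr F ^ (k / 2) ≤ qr F ^ k * (71 / 100) ^ k := by
    rw [h2]
    exact mul_le_mul_of_nonneg_left h3 hqk.le
  have h5 : (1 / k - 2 * (71 / 100 : ℝ) ^ k) * qr F ^ k * k ≤ NI F k * k := by
    have : (1 / k - 2 * (71 / 100 : ℝ) ^ k) * qr F ^ k * k =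
        qr F ^ k - 2 * k * (qr F ^ k * (71 / 100) ^ k) := by
      field_simp
    rw [this]
    have h6 : 0 ≤ qr F ^ k * (71 / 100) ^ k := by positivity
    nlinarith
  exact le_of_mul_le_mul_right h5 hk0

theorem sum_geom (D K : ℕ) : ∑ k ∈ Ioc D K, (71 / 100 : ℝ) ^ k ≤ 5 / 2 := by
  have h0 : Ioc D K = Ico (D + 1) (K + 1) := by
    ext k; simp only [mem_Ioc, mem_Ico]; omega
  rw [h0]
  have h1 := geom_sum_Ico_le_of_lt_one (x := (71 / 100 : ℝ)) (m := D + 1) (n := K + 1)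
    (by norm_num) (by norm_num)
  refine h1.trans ?_
  have h2 : (71 / 100 : ℝ) ^ (D + 1) ≤ 71 / 100 := by
    calc (71 / 100 : ℝ) ^ (D + 1) ≤ (71 / 100 : ℝ) ^ 1 :=
          pow_le_pow_of_le_one (by norm_num) (by norm_num) (by omega)
      _ = 71 / 100 := by norm_num
  rw [div_le_iff₀ (by norm_num)]
  linarith

theorem sum_inv_ge (D K : ℕ) (h : D ≤ K) :
    Real.log ((K + 1) / (D + 1)) ≤ ∑ k ∈ Ioc D K, (1 : ℝ) / k := by
  induction K, h using Nat.le_induction with
  | base =>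
    have : ((D : ℝ) + 1) / (D + 1) = 1 := div_self (by positivity)
    rw [this]
    simp
  | succ K hK ih =>
    rw [Finset.sum_Ioc_succ_top hK]
    have h1 : Real.log (((K + 1 : ℕ) + 1 : ℝ) / (D + 1)) =
        Real.log ((K + 1) / (D + 1)) + Real.log (((K + 1 : ℕ) + 1 : ℝ) / (K + 1)) := by
      rw [← Real.log_mul (by positivity) (by positivity)]
      congr 1
      push_cast
      field_simp
    rw [h1]
    have h2 : Real.log (((K + 1 : ℕ) + 1 : ℝ) / (K + 1)) ≤ 1 / ((K + 1 : ℕ) : ℝ) := by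
      have h3 := Real.log_le_sub_one_of_pos
        (show (0:ℝ) < ((K + 1 : ℕ) + 1 : ℝ) / (K + 1) by positivity)
      refine h3.trans (le_of_eq ?_)
      push_cast
      field_simp
      ring
    linarith

theorem sum_inv_le (K : ℕ) (hK : 1 ≤ K) : ∑ k ∈ Ioc 0 K, (1 : ℝ) / k ≤ 1 + Real.log K := by
  have h1 := harmonic_le_one_add_log K
  rw [harmonic_eq_sum_Icc] at h1
  have h2 : Ioc 0 K = Icc 1 K := by ext k; simp only [mem_Ioc, mem_Icc]; omega
  rw [h2]
  push_cast at h1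
  simpa [one_div] using h1

/-- lower bound for the sum of the inverse norms -/
theorem sum_NI_ge (D K : ℕ) (h : D ≤ K) :
    Real.log ((K + 1) / (D + 1)) - 5 ≤ ∑ k ∈ Ioc D K, (NI F k : ℝ) / qr F ^ k := by
  have h1 : ∑ k ∈ Ioc D K, (1 / (k:ℝ) - 2 * (71 / 100 : ℝ) ^ k) ≤
      ∑ k ∈ Ioc D K, (NI F k : ℝ) / qr F ^ k :=
    Finset.sum_le_sum (fun k hk => NI_real_ge k (by rw [mem_Ioc] at hk; omega))
  rw [Finset.sum_sub_distrib, ← Finset.mul_sum] at h1
  have h2 := sum_inv_ge D K h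
  have h3 := sum_geom D K
  linarith

/-- upper bound for the sum of the inverse norms -/
theorem sum_NI_le (D K : ℕ) (hK : 1 ≤ K) :
    ∑ k ∈ Ioc D K, (NI F k : ℝ) / qr F ^ k ≤ 1 + Real.log K := by
  refine le_trans ?_ (sum_inv_le K hK)
  calc ∑ k ∈ Ioc D K, (NI F k : ℝ) / qr F ^ k ≤ ∑ k ∈ Ioc D K, (1 : ℝ) / k :=
        Finset.sum_le_sum (fun k hk => NI_real_le k (by rw [mem_Ioc] at hk; omega))
    _ ≤ ∑ k ∈ Ioc 0 K, (1 : ℝ) / k := by
        apply Finset.sum_le_sum_of_subset_of_nonneg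
        · intro k hk; rw [mem_Ioc] at hk ⊢; omega
        · intro k _ _; positivity

variable (F)

open scoped Classical in
/-- the monic irreducible polynomials with degree in `(D, K]` -/
noncomputable def PrS (D K : ℕ) : Finset F[X] := (Ioc D K).biUnion (fun k => Ir F k)

variable {F}

theorem mem_PrS {D K : ℕ} {P : F[X]} :
    P ∈ PrS F D K ↔ P.Monic ∧ Irreducible P ∧ D < P.natDegree ∧ P.natDegree ≤ K := by
  classical
  unfold PrS
  rw [mem_biUnion]
  constructor
  · rintro ⟨k, hk, hP⟩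
    rw [mem_Ir] at hP
    rw [mem_Ioc] at hk
    exact ⟨hP.1, hP.2.1, by omega, by omega⟩
  · rintro ⟨h1, h2, h3, h4⟩
    exact ⟨P.natDegree, mem_Ioc.2 ⟨h3, h4⟩, mem_Ir.2 ⟨h1, h2, rfl⟩⟩

theorem sum_PrS (D K : ℕ) (φ : ℕ → ℝ) :
    ∑ P ∈ PrS F D K, φ P.natDegree = ∑ k ∈ Ioc D K, NI F k * φ k := by
  classical
  unfold PrS
  rw [Finset.sum_biUnion]
  · apply Finset.sum_congr rfl
    intro k _
    rw [Finset.sum_congr rfl (fun P hP => by rw [(mem_Ir.1 hP).2.2] : ∀ P ∈ Ir F k,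
      φ P.natDegree = φ k)]
    rw [Finset.sum_const, nsmul_eq_mul]
    rfl
  · intro k _ l _ hkl
    change Disjoint _ _
    rw [Finset.disjoint_left]
    intro P h1 h2
    rw [mem_Ir] at h1 h2
    exact hkl (h1.2.2.symm.trans h2.2.2)

theorem coprime_of_mem {D K D' K' : ℕ} {P Q : F[X]} (hP : P ∈ PrS F D K) (hQ : Q ∈ PrS F D' K')
    (h : P ≠ Q) : IsCoprime P Q := by
  rw [mem_PrS] at hP hQ
  rw [Irreducible.coprime_iff_not_dvd hP.2.1]
  intro hd
  exact h (eq_of_monic_of_associated hP.1 hQ.1 (hP.2.1.associated_of_dvd hQ.2.1 hd))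

theorem card_PrS_le (D K : ℕ) : ((PrS F D K).card : ℝ) ≤ 2 * qr F ^ K := by
  have h1 : ((PrS F D K).card : ℝ) = ∑ k ∈ Ioc D K, (NI F k : ℝ) := by
    have := sum_PrS (F := F) D K (fun _ => 1)
    simpa using this
  rw [h1]
  have hq := two_le_qr F
  have hq0 := qr_pos F
  have h2 : ∑ k ∈ Ioc D K, (NI F k : ℝ) ≤ ∑ k ∈ Ioc 0 K, qr F ^ k := by
    refine le_trans (Finset.sum_le_sum (fun k hk => ?_)) (Finset.sum_le_sum_of_subset_of_nonneg
      (s := Ioc D K) (fun k hk => by rw [mem_Ioc] at hk ⊢; omega) (fun k _ _ => by positivity))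
    rw [mem_Ioc] at hk
    have h3 := NI_real_le (F := F) k (by omega)
    have h4 : (1:ℝ) / k ≤ 1 := by
      rw [div_le_one (by exact_mod_cast (by omega : 0 < k))]
      exact_mod_cast (by omega : 1 ≤ k)
    have h5 := h3.trans h4
    rwa [div_le_one (by positivity)] at h5
  refine h2.trans ?_
  clear h1 h2
  induction K with
  | zero => simp
  | succ K ih =>
    rw [Finset.sum_Ioc_succ_top (by omega), pow_succ]
    have : 0 < qr F ^ K := by positivity
    nlinarith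

/-- the degree of the product of all irreducible polynomials of degree at most `d` -/
theorem degree_prod_le (D K : ℕ) : (∏ P ∈ PrS F D K, P).natDegree ≤ 2 * Fintype.card F ^ K := by
  have h1 : (∏ P ∈ PrS F D K, P).natDegree = ∑ P ∈ PrS F D K, P.natDegree :=
    natDegree_prod_of_monic _ _ (fun P hP => (mem_PrS.1 hP).1)
  rw [h1]
  have h2 : ((∑ P ∈ PrS F D K, P.natDegree : ℕ) : ℝ) ≤ ((2 * Fintype.card F ^ K : ℕ) : ℝ) := by
    push_cast
    have h3 := sum_PrS (F := F) D K (fun k => (k : ℝ))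
    rw [h3]
    have hq := two_le_qr F
    have hq0 := qr_pos F
    have h4 : ∑ k ∈ Ioc D K, (NI F k : ℝ) * k ≤ ∑ k ∈ Ioc 0 K, qr F ^ k := by
      refine le_trans (Finset.sum_le_sum (fun k hk => ?_)) (Finset.sum_le_sum_of_subset_of_nonneg
        (s := Ioc D K) (fun k hk => by rw [mem_Ioc] at hk ⊢; omega) (fun k _ _ => by positivity))
      rw [mem_Ioc] at hk
      have h5 := NI_real_le (F := F) k (by omega)
      have hk0 : (0:ℝ) < k := by exact_mod_cast (by omega : 0 < k)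
      rw [div_le_div_iff₀ (by positivity) hk0, one_mul] at h5
      exact h5
    refine h4.trans ?_
    change _ ≤ 2 * qr F ^ K
    clear h1 h3 h4
    induction K with
    | zero => simp
    | succ K ih =>
      rw [Finset.sum_Ioc_succ_top (by omega), pow_succ]
      have : 0 < qr F ^ K := by positivity
      nlinarith
  exact_mod_cast h2

end Pool.Agent.H525.FF
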