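import Pool.Agent.H525.FF.Smooth
import Pool.Agent.H525.AC.Greedy

set_option autoImplicit false

/-! # The first part of the sieve: Rankin's trick and the greedy sieve for polynomials -/

namespace Pool.Agent.H525.FF

open Polynomial Finset Filter

open scoped Classical

variable (F : Type) [Field F] [Fintype F]

/-- multiples of irreducible polynomials of degree in `(d, m)` -/
theorem large_count (d m : ℕ) (hd : 1 ≤ d) :
    (((PD F m).filter (fun h => h ≠ 0 ∧ ∃ P : F[X], P.Monic ∧ Irreducible P ∧ P ∣ h ∧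
      d < P.natDegree)).card : ℝ) ≤ qr F ^ m * ((m - d : ℕ) / d) := by
  have hq0 := qr_pos F
  have hd0 : (0:ℝ) < d := by exact_mod_cast hd
  have h1 : ((PD F m).filter (fun h => h ≠ 0 ∧ ∃ P : F[X], P.Monic ∧ Irreducible P ∧ P ∣ h ∧
      d < P.natDegree)) ⊆ (PrS F d (m - 1)).biUnion (fun P => (PD F m).filter (fun h => P ∣ h - 0)) := by
    intro h hh
    rw [mem_filter, mem_PD] at hh
    obtain ⟨hdeg, h0, P, hP1, hP2, hP3, hP4⟩ := hh
    rw [mem_biUnion]
    refine ⟨P, ?_, ?_⟩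
    · rw [mem_PrS]
      refine ⟨hP1, hP2, hP4, ?_⟩
      have h2 := natDegree_le_of_dvd hP3 h0
      rw [degree_eq_natDegree h0] at hdeg
      have h3 : h.natDegree < m := by exact_mod_cast hdeg
      omega
    · rw [mem_filter, mem_PD, sub_zero]
      exact ⟨hdeg, hP3⟩
  have h2 : (((PD F m).filter (fun h => h ≠ 0 ∧ ∃ P : F[X], P.Monic ∧ Irreducible P ∧ P ∣ h ∧
      d < P.natDegree)).card : ℝ) ≤ ∑ P ∈ PrS F d (m - 1), qr F ^ m / qr F ^ P.natDegree := by
    have h3 := (Finset.card_le_card h1).trans Finset.card_biUnion_le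
    have h4 : (((PD F m).filter (fun h => h ≠ 0 ∧ ∃ P : F[X], P.Monic ∧ Irreducible P ∧ P ∣ h ∧
      d < P.natDegree)).card : ℝ) ≤
        ∑ P ∈ PrS F d (m - 1), (((PD F m).filter (fun h => P ∣ h - 0)).card : ℝ) := by
      exact_mod_cast h3
    refine h4.trans (Finset.sum_le_sum (fun P hP => ?_))
    rw [mem_PrS] at hP
    have h5 := card_PD_dvd (F := F) m P hP.1 (by omega) 0
    have h6 : (((PD F m).filter (fun h => P ∣ h - 0)).card : ℝ) = qr F ^ (m - P.natDegree) := by
      unfold qr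
      rw [← Nat.cast_pow, ← h5]
    rw [h6]
    apply le_of_eq
    rw [eq_div_iff (by positivity), ← pow_add]
    congr 1
    omega
  refine h2.trans ?_
  rw [sum_PrS (F := F) d (m - 1) (fun k => qr F ^ m / qr F ^ k)]
  have h3 : ∀ k ∈ Ioc d (m - 1), (NI F k : ℝ) * (qr F ^ m / qr F ^ k) ≤ qr F ^ m * (1 / d) := by
    intro k hk
    rw [mem_Ioc] at hk
    have h4 := NI_real_le (F := F) k (by omega)
    have h5 : (1:ℝ) / k ≤ 1 / d := one_div_le_one_div_of_le hd0 (by exact_mod_cast hk.1.le)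
    calc (NI F k : ℝ) * (qr F ^ m / qr F ^ k) = qr F ^ m * ((NI F k : ℝ) / qr F ^ k) := by ring
      _ ≤ qr F ^ m * (1 / d) := mul_le_mul_of_nonneg_left (h4.trans h5) (by positivity)
  refine (Finset.sum_le_sum h3).trans ?_
  rw [Finset.sum_const, Nat.card_Ioc, nsmul_eq_mul]
  have h6 : ((m - 1 - d : ℕ) : ℝ) ≤ ((m - d : ℕ) : ℝ) := by exact_mod_cast (by omega)
  calc ((m - 1 - d : ℕ) : ℝ) * (qr F ^ m * (1 / d)) ≤ ((m - d : ℕ) : ℝ) * (qr F ^ m * (1 / d)) :=
        mul_le_mul_of_nonneg_right h6 (by positivity)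
    _ = _ := by ring

/-- numerical facts for the parameters -/
theorem ev_params : ∃ d₀ : ℕ, ∀ d : ℕ, d₀ ≤ d → ∀ D ld lld : ℝ, D = d → ld = Real.log D →
    lld = Real.log ld → 1 ≤ lld ∧ 1 ≤ ld ∧ 1 ≤ D ∧ lld ≤ ld ∧ 200 * ld ≤ D ∧
      4 * Real.exp 13 ≤ D := by
  have h1 : ∀ᶠ D : ℝ in atTop, 1 ≤ Real.log (Real.log D) :=
    (Real.tendsto_log_atTop.comp Real.tendsto_log_atTop).eventually_ge_atTop 1
  have h2 : ∀ᶠ D : ℝ in atTop, 1 ≤ Real.log D := Real.tendsto_log_atTop.eventually_ge_atTop 1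
  have h3 : ∀ᶠ D : ℝ in atTop, 200 * Real.log D ≤ D := by
    have e1 := Real.isLittleO_log_id_atTop.def (show (0:ℝ) < 1 / 200 by norm_num)
    filter_upwards [e1, eventually_ge_atTop (1:ℝ)] with L hL hL1
    rw [Real.norm_eq_abs, abs_of_nonneg (Real.log_nonneg hL1), Real.norm_eq_abs] at hL
    simp only [id] at hL
    rw [abs_of_nonneg (by linarith)] at hL
    linarith
  have h4 : ∀ᶠ D : ℝ in atTop, 4 * Real.exp 13 ≤ D := eventually_ge_atTop _
  have h := ((((h1.and h2).and h3).and h4).and (eventually_ge_atTop (1:ℝ)))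
  obtain ⟨d₀, hd₀⟩ := Filter.eventually_atTop.mp
    (tendsto_natCast_atTop_atTop.eventually h : ∀ᶠ d : ℕ in atTop, _)
  refine ⟨d₀, ?_⟩
  rintro d hd D ld lld rfl rfl rfl
  obtain ⟨⟨⟨⟨e1, e2⟩, e3⟩, e4⟩, e5⟩ := hd₀ d hd
  refine ⟨e1, e2, e5, ?_, e3, e4⟩
  have := Real.log_le_sub_one_of_pos (show 0 < Real.log (d:ℝ) by linarith)
  linarith

theorem survivors : ∃ C : ℝ, 0 < C ∧ ∃ d₀ : ℕ, ∀ d : ℕ, d₀ ≤ d → ∀ s : ℕ, 1 ≤ s →
    ∃ b : F[X], (((PD F (d + s)).filter (fun h => ∀ P : F[X], P.Monic → Irreducible P →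
      P.natDegree ≤ d → ¬ P ∣ b + h)).card : ℝ) ≤
        C * (qr F ^ (d + s) * s * Real.log d / (d ^ 2 * Real.log (Real.log d))) := by
  obtain ⟨d₀, hd₀⟩ := ev_params
  refine ⟨15 * Real.exp 5, by positivity, d₀, ?_⟩
  intro d hd s hs
  obtain ⟨e1, e2, e3, e4, e5, e6⟩ := hd₀ d hd d _ _ rfl rfl rfl
  set D : ℝ := (d : ℝ) with hD
  set ld : ℝ := Real.log D with hld
  set lld : ℝ := Real.log ld with hlld
  have hq := two_le_qr F
  have hq0 := qr_pos F
  have hD0 : 0 < D := by linarith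
  have hld0 : 0 < ld := by linarith
  have hlld0 : 0 < lld := by linarith
  have hdn : 1 ≤ d := by
    have : (1:ℝ) ≤ (d:ℝ) := e3
    exact_mod_cast this
  set x : ℝ := D * lld / (5 * ld) with hx
  have hx0 : 0 < x := by positivity
  have hx40 : 40 * lld ≤ x := by
    rw [hx, le_div_iff₀ (by positivity)]
    nlinarith
  set z : ℕ := ⌊x⌋₊ with hz
  have hzx : (z:ℝ) ≤ x := Nat.floor_le hx0.le
  have hzx2 : x < z + 1 := Nat.lt_floor_add_one x
  have hz20 : 20 * lld ≤ z := by linarith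
  have hz1 : 1 ≤ z := by
    have : (1:ℝ) ≤ z := by linarith
    exact_mod_cast this
  have hz0 : (0:ℝ) < z := by exact_mod_cast hz1
  have hxD : x ≤ D := by
    rw [hx, div_le_iff₀ (by positivity)]
    nlinarith
  have hzD : (z:ℝ) ≤ D := hzx.trans hxD
  have hzd : z ≤ d := by
    have : (z:ℝ) ≤ (d:ℝ) := hzD
    exact_mod_cast this
  set m : ℕ := d + s with hm
  have hmD : D ≤ (m:ℝ) := by rw [hm, hD]; push_cast; linarith [Nat.cast_nonneg (α := ℝ) s]
  have hs1 : (1:ℝ) ≤ s := by exact_mod_cast hs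
  have hqm : 0 < qr F ^ m := by positivity
  -- the set T
  set T : Finset F[X] := (PD F m).filter (fun h => ∀ P ∈ PrS F z d, ¬ P ∣ h) with hT
  have hTcard : (T.card : ℝ) ≤ 3 * (qr F ^ m * s / D) := by
    have h1 : T ⊆ insert 0 (((PD F m).filter (fun h => h ≠ 0 ∧ ∃ P : F[X], P.Monic ∧
        Irreducible P ∧ P ∣ h ∧ d < P.natDegree)) ∪
        ((PD F m).filter (fun h => h ≠ 0 ∧ ∀ P : F[X], P.Monic → Irreducible P → P ∣ h →
          P.natDegree ≤ z))) := by
      intro h hh
      rw [hT, mem_filter] at hh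
      rw [mem_insert, mem_union, mem_filter, mem_filter]
      by_cases h0 : h = 0
      · exact Or.inl h0
      · right
        by_cases h2 : ∃ P : F[X], P.Monic ∧ Irreducible P ∧ P ∣ h ∧ d < P.natDegree
        · exact Or.inl ⟨hh.1, h0, h2⟩
        · right
          refine ⟨hh.1, h0, ?_⟩
          intro P hP1 hP2 hP3
          by_contra h4
          push Not at h4
          by_cases h5 : d < P.natDegree
          · exact h2 ⟨P, hP1, hP2, hP3, h5⟩
          · exact hh.2 P (mem_PrS.2 ⟨hP1, hP2, h4, by omega⟩) hP3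
    have h2 := (Finset.card_le_card h1).trans ((Finset.card_insert_le _ _).trans
      (Nat.add_le_add_right (Finset.card_union_le _ _) 1))
    have h3 : (T.card : ℝ) ≤ (((PD F m).filter (fun h => h ≠ 0 ∧ ∃ P : F[X], P.Monic ∧
        Irreducible P ∧ P ∣ h ∧ d < P.natDegree)).card : ℝ) +
        (((PD F m).filter (fun h => h ≠ 0 ∧ ∀ P : F[X], P.Monic → Irreducible P → P ∣ h →
          P.natDegree ≤ z)).card : ℝ) + 1 := by exact_mod_cast h2
    have h4 := large_count F d m hdn
    have hms : m - d = s := by omega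
    rw [hms] at h4
    have htz : lld / z ≤ 1 / 20 := by
      rw [div_le_div_iff₀ hz0 (by norm_num)]
      linarith
    have h5 := smooth_count (F := F) z hz1 lld hlld0.le htz m
    have h6 : 4 * (qr F * Real.exp (-(lld / z))) ^ m *
        Real.exp (1 + Real.log z + Real.exp lld + 12) ≤ qr F ^ m * s / D := by
      have h7 : (qr F * Real.exp (-(lld / z))) ^ m = qr F ^ m * Real.exp (-(lld / z * m)) := by
        rw [mul_pow, ← Real.exp_nat_mul]
        congr 2
        ring
      have h8 : Real.exp lld = ld := Real.exp_log hld0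
      have h9 : Real.log z ≤ ld := Real.log_le_log hz0 hzD
      have h10 : 5 * ld ≤ lld / z * m := by
        have h11 : lld / x ≤ lld / z := div_le_div_of_nonneg_left hlld0.le hz0 hzx
        have h12 : lld / x * D = 5 * ld := by
          rw [hx]; field_simp
        calc 5 * ld = lld / x * D := h12.symm
          _ ≤ lld / z * m := mul_le_mul h11 hmD hD0.le (by positivity)
      rw [h7, h8]
      have h13 : Real.exp (-(lld / z * m)) * Real.exp (1 + Real.log z + ld + 12) ≤
          Real.exp 13 / D ^ 2 := by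
        rw [← Real.exp_add]
        have h14 : Real.exp 13 / D ^ 2 = Real.exp (13 - 2 * ld) := by
          rw [Real.exp_sub]
          congr 1
          rw [hld, mul_comm, Real.exp_mul, Real.exp_log hD0]
          norm_num
        rw [h14]
        apply Real.exp_le_exp.mpr
        linarith
      calc 4 * (qr F ^ m * Real.exp (-(lld / z * m))) * Real.exp (1 + Real.log z + ld + 12)
          = 4 * qr F ^ m *
            (Real.exp (-(lld / z * m)) * Real.exp (1 + Real.log z + ld + 12)) := by ring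
        _ ≤ 4 * qr F ^ m * (Real.exp 13 / D ^ 2) := mul_le_mul_of_nonneg_left h13 (by positivity)
        _ = qr F ^ m * (4 * Real.exp 13) / D ^ 2 := by ring
        _ ≤ qr F ^ m * (s * D) / D ^ 2 := by
            apply div_le_div_of_nonneg_right _ (by positivity)
            apply mul_le_mul_of_nonneg_left _ hqm.le
            nlinarith
        _ = qr F ^ m * s / D := by field_simp
    have h7 : (1:ℝ) ≤ qr F ^ m * s / D := by
      rw [le_div_iff₀ hD0, one_mul]
      have h8 : (m:ℝ) ≤ qr F ^ m := by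
        have h9 : (m:ℝ) ≤ 2 ^ m := by exact_mod_cast (Nat.lt_two_pow_self).le
        exact h9.trans (pow_le_pow_left₀ (by norm_num) hq m)
      nlinarith
    have h8 : qr F ^ m * (s / (d:ℝ)) = qr F ^ m * s / D := by rw [hD]; ring
    linarith
  -- the greedy step
  obtain ⟨c, hc1, hc2⟩ := Pool.Agent.H525.AC.greedy T (PrS F 0 z) (fun P h => h %ₘ P)
    (fun P => PD F P.natDegree)
    (by
      intro P hP h _
      rw [mem_PD]
      have := degree_modByMonic_lt h (mem_PrS.1 hP).1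
      rwa [degree_eq_natDegree (mem_PrS.1 hP).1.ne_zero] at this)
    (by
      intro P _
      exact ⟨0, by rw [mem_PD, degree_zero]; exact WithBot.bot_lt_coe _⟩)
  have hprod : ∏ P ∈ PrS F 0 z, (1 - 1 / ((PD F P.natDegree).card : ℝ)) ≤ Real.exp 5 / x := by
    have h1 : ∀ P ∈ PrS F 0 z, ((PD F P.natDegree).card : ℝ) = qr F ^ P.natDegree := by
      intro P _
      rw [card_PD]
      unfold qr
      push_cast
      rfl
    have h2 := Pool.Agent.H525.AC.prod_le_exp (PrS F 0 z)
      (fun P => ((PD F P.natDegree).card : ℝ)) (fun P hP => by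
        rw [h1 P hP]
        exact one_le_pow₀ (by linarith))
    refine h2.trans ?_
    rw [Finset.sum_congr rfl (fun P hP => by rw [h1 P hP] : ∀ P ∈ PrS F 0 z,
      1 / ((PD F P.natDegree).card : ℝ) = 1 / qr F ^ P.natDegree)]
    rw [sum_PrS (F := F) 0 z (fun k => 1 / qr F ^ k)]
    have h3 := sum_NI_ge (F := F) 0 z (Nat.zero_le _)
    have h4 : ∑ k ∈ Ioc 0 z, (NI F k : ℝ) * (1 / qr F ^ k) =
        ∑ k ∈ Ioc 0 z, (NI F k : ℝ) / qr F ^ k := by
      apply Finset.sum_congr rfl; intro k _; rw [mul_one_div]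
    rw [h4]
    have h5 : Real.exp 5 / x = Real.exp (5 - Real.log x) := by
      rw [Real.exp_sub, Real.exp_log hx0]
    rw [h5]
    apply Real.exp_le_exp.mpr
    have h6 : Real.log x ≤ Real.log (((z:ℝ) + 1) / (((0:ℕ):ℝ) + 1)) := by
      apply Real.log_le_log hx0
      rw [Nat.cast_zero, zero_add, div_one]
      exact hzx2.le
    linarith
  -- the residue class
  obtain ⟨b, hb⟩ := crt_poly (PrS F 0 d) (fun P => P)
    (fun P hP Q hQ hPQ => coprime_of_mem hP hQ hPQ)
    (fun P => if P.natDegree ≤ z then - c P else 0)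
  refine ⟨b, ?_⟩
  have hsub : ((PD F m).filter (fun h => ∀ P : F[X], P.Monic → Irreducible P →
      P.natDegree ≤ d → ¬ P ∣ b + h)) ⊆
      T.filter (fun h => ∀ P ∈ PrS F 0 z, h %ₘ P ≠ c P) := by
    intro h hh
    rw [mem_filter] at hh
    rw [mem_filter, hT, mem_filter]
    refine ⟨⟨hh.1, ?_⟩, ?_⟩
    · intro P hP hPh
      rw [mem_PrS] at hP
      have h1 := hb P (mem_PrS.2 ⟨hP.1, hP.2.1, by omega, hP.2.2.2⟩)
      rw [if_neg (by omega), sub_zero] at h1
      exact hh.2 P hP.1 hP.2.1 hP.2.2.2 (dvd_add h1 hPh)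
    · intro P hP hPc
      rw [mem_PrS] at hP
      have h1 := hb P (mem_PrS.2 ⟨hP.1, hP.2.1, by omega, by omega⟩)
      rw [if_pos hP.2.2.2, sub_neg_eq_add] at h1
      have h2 : P ∣ h - c P := by
        rw [← hPc]
        have h3 := modByMonic_add_div h P
        refine ⟨h /ₘ P, ?_⟩
        conv_lhs => rw [← h3]
        rw [h3]
        linear_combination h3.symm
      apply hh.2 P hP.1 hP.2.1 (by omega)
      have h3 := dvd_add h1 h2
      have h4 : b + c P + (h - c P) = b + h := by ring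
      rwa [h4] at h3
  have h1 : (((PD F m).filter (fun h => ∀ P : F[X], P.Monic → Irreducible P →
      P.natDegree ≤ d → ¬ P ∣ b + h)).card : ℝ) ≤
      ((T.filter (fun h => ∀ P ∈ PrS F 0 z, h %ₘ P ≠ c P)).card : ℝ) := by
    exact_mod_cast Finset.card_le_card hsub
  have hc3 : ((T.filter (fun h => ∀ P ∈ PrS F 0 z, h %ₘ P ≠ c P)).card : ℝ) ≤
      T.card * ∏ P ∈ PrS F 0 z, (1 - 1 / ((PD F P.natDegree).card : ℝ)) := by
    convert hc2
  refine h1.trans (hc3.trans ?_)
  calc (T.card : ℝ) * ∏ P ∈ PrS F 0 z, (1 - 1 / ((PD F P.natDegree).card : ℝ))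
      ≤ (T.card : ℝ) * (Real.exp 5 / x) := mul_le_mul_of_nonneg_left hprod (Nat.cast_nonneg _)
    _ ≤ 3 * (qr F ^ m * s / D) * (Real.exp 5 / x) :=
        mul_le_mul_of_nonneg_right hTcard (by positivity)
    _ = 15 * Real.exp 5 * (qr F ^ m * s * ld / (D ^ 2 * lld)) := by
        rw [hx]
        field_simp
        ring

end Pool.Agent.H525.FF
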