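import Pool.Agent.H525.FF.Mertens

set_option autoImplicit false

/-! # Polynomials all of whose irreducible factors have small degree -/

namespace Pool.Agent.H525.FF

open Polynomial Finset

open scoped Classical

variable {F : Type} [Field F] [Fintype F]

/-- monic polynomials of degree `j` all of whose irreducible factors belong to `S` -/
noncomputable def SmS (S : Finset F[X]) (j : ℕ) : Finset F[X] :=
  (PD F (j + 1)).filter (fun h => h.Monic ∧ h.natDegree = j ∧
    ∀ P : F[X], P.Monic → Irreducible P → P ∣ h → P ∈ S)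

theorem mem_SmS {S : Finset F[X]} {j : ℕ} {h : F[X]} : h ∈ SmS S j ↔
    h.Monic ∧ h.natDegree = j ∧ ∀ P : F[X], P.Monic → Irreducible P → P ∣ h → P ∈ S := by
  unfold SmS
  rw [mem_filter, mem_PD]
  constructor
  · exact fun h => h.2
  · intro h1
    refine ⟨?_, h1⟩
    rw [degree_eq_natDegree h1.1.ne_zero, h1.2.1]
    exact_mod_cast Nat.lt_succ_self j

omit [Fintype F] in
theorem exists_irr_factor {h : F[X]} (h0 : h ≠ 0) (hd : 0 < h.natDegree) :
    ∃ P : F[X], P.Monic ∧ Irreducible P ∧ P ∣ h := by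
  have hu : ¬ IsUnit h := by
    intro hu
    have := natDegree_eq_zero_of_isUnit hu
    omega
  obtain ⟨P, hP1, hP2⟩ := WfDvdMonoid.exists_irreducible_factor hu h0
  refine ⟨normalize P, monic_normalize hP1.ne_zero, ?_, ?_⟩
  · exact (normalize_associated P).symm.irreducible hP1
  · exact (normalize_associated P).dvd.trans hP2

theorem SmS_empty (j : ℕ) (hj : 1 ≤ j) : (SmS (∅ : Finset F[X]) j).card = 0 := by
  rw [Finset.card_eq_zero, Finset.eq_empty_iff_forall_notMem]
  intro h hh
  rw [mem_SmS] at hh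
  obtain ⟨P, h1, h2, h3⟩ := exists_irr_factor hh.1.ne_zero (by omega : 0 < h.natDegree)
  exact absurd (hh.2.2 P h1 h2 h3) (Finset.notMem_empty _)

theorem SmS_zero (S : Finset F[X]) : (SmS S 0).card ≤ 1 := by
  rw [Finset.card_le_one]
  intro a ha b hb
  rw [mem_SmS] at ha hb
  rw [ha.1.natDegree_eq_zero.1 ha.2.1, hb.1.natDegree_eq_zero.1 hb.2.1]

theorem SmS_insert_lt (S : Finset F[X]) (P : F[X]) (hPi : Irreducible P) (j : ℕ)
    (hj : j < P.natDegree) : (SmS (insert P S) j).card ≤ (SmS S j).card := by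
  apply Finset.card_le_card
  intro h hh
  rw [mem_SmS] at hh ⊢
  refine ⟨hh.1, hh.2.1, ?_⟩
  intro Q hQ1 hQ2 hQ3
  rcases Finset.mem_insert.1 (hh.2.2 Q hQ1 hQ2 hQ3) with rfl | h1
  · have := natDegree_le_of_dvd hQ3 hh.1.ne_zero
    omega
  · exact h1

theorem SmS_insert_ge (S : Finset F[X]) (P : F[X]) (hPm : P.Monic) (hPi : Irreducible P) (j : ℕ)
    (hj : P.natDegree ≤ j) : (SmS (insert P S) j).card ≤
      (SmS S j).card + (SmS (insert P S) (j - P.natDegree)).card := by
  have h1 : (SmS (insert P S) j) ⊆ (SmS S j) ∪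
      (SmS (insert P S) (j - P.natDegree)).image (fun g => P * g) := by
    intro h hh
    rw [mem_SmS] at hh
    rw [Finset.mem_union]
    by_cases hPh : P ∣ h
    · right
      obtain ⟨g, rfl⟩ := hPh
      rw [Finset.mem_image]
      refine ⟨g, ?_, rfl⟩
      have hg : g.Monic := hPm.of_mul_monic_left hh.1
      rw [mem_SmS]
      refine ⟨hg, ?_, ?_⟩
      · have := hh.2.1
        rw [hPm.natDegree_mul hg] at this
        omega
      · intro Q hQ1 hQ2 hQ3
        exact hh.2.2 Q hQ1 hQ2 (hQ3.trans (dvd_mul_left _ _))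
    · left
      rw [mem_SmS]
      refine ⟨hh.1, hh.2.1, ?_⟩
      intro Q hQ1 hQ2 hQ3
      rcases Finset.mem_insert.1 (hh.2.2 Q hQ1 hQ2 hQ3) with rfl | h1
      · exact absurd hQ3 hPh
      · exact h1
  refine (Finset.card_le_card h1).trans ((Finset.card_union_le _ _).trans ?_)
  exact Nat.add_le_add_left Finset.card_image_le _

theorem SmS_bound (S : Finset F[X]) (hS : ∀ P ∈ S, P.Monic ∧ Irreducible P) (y : ℝ) (hy : 1 < y)
    (j : ℕ) : ((SmS S j).card : ℝ) ≤ y ^ j * ∏ P ∈ S, (1 - (1 / y) ^ P.natDegree)⁻¹ := by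
  induction S using Finset.induction_on generalizing j with
  | empty =>
    rw [Finset.prod_empty, mul_one]
    rcases Nat.eq_zero_or_pos j with rfl | hj
    · rw [pow_zero]
      exact_mod_cast SmS_zero (∅ : Finset F[X])
    · rw [SmS_empty j hj, Nat.cast_zero]
      exact pow_nonneg (by linarith) j
  | insert P S hPS ih =>
    have hP := hS P (Finset.mem_insert_self _ _)
    have hS' : ∀ P ∈ S, P.Monic ∧ Irreducible P := fun Q hQ =>
      hS Q (Finset.mem_insert_of_mem hQ)
    have ih' := fun j => ih hS' j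
    set B : ℝ := ∏ P ∈ S, (1 - (1 / y) ^ P.natDegree)⁻¹ with hB
    have hd : 1 ≤ P.natDegree := Irreducible.natDegree_pos hP.2
    have hx0 : 0 < (1 / y) ^ P.natDegree := by positivity
    have hx1 : (1 / y) ^ P.natDegree < 1 := by
      apply pow_lt_one₀ (by positivity) _ (by omega)
      rw [div_lt_one (by linarith)]
      exact hy
    have hxi : 1 ≤ (1 - (1 / y) ^ P.natDegree)⁻¹ := by
      rw [one_le_inv₀ (by linarith)]
      linarith
    have hB0 : 0 ≤ B := by
      rw [hB]
      apply Finset.prod_nonneg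
      intro Q hQ
      rw [inv_nonneg, sub_nonneg]
      apply pow_le_one₀ (by positivity)
      rw [div_le_one (by linarith)]
      exact hy.le
    rw [Finset.prod_insert hPS, ← hB]
    induction j using Nat.strong_induction_on with
    | _ j ihj =>
      rcases lt_or_ge j P.natDegree with hj | hj
      · have h1 := SmS_insert_lt S P hP.2 j hj
        have h2 : ((SmS (insert P S) j).card : ℝ) ≤ (SmS S j).card := by exact_mod_cast h1
        refine h2.trans ((ih' j).trans ?_)
        apply mul_le_mul_of_nonneg_left _ (by positivity)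
        nlinarith
      · have h1 := SmS_insert_ge S P hP.1 hP.2 j hj
        have h2 : ((SmS (insert P S) j).card : ℝ) ≤
            (SmS S j).card + (SmS (insert P S) (j - P.natDegree)).card := by exact_mod_cast h1
        refine h2.trans ((add_le_add (ih' j) (ihj (j - P.natDegree) (by omega))).trans ?_)
        have h3 : y ^ (j - P.natDegree) = y ^ j * (1 / y) ^ P.natDegree := by
          rw [one_div, inv_pow]
          have h4 : y ^ j = y ^ (j - P.natDegree) * y ^ P.natDegree := by
            rw [← pow_add]; congr 1; omega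
          rw [h4]
          have : y ≠ 0 := by linarith
          field_simp
        rw [h3]
        apply le_of_eq
        have h5 : 1 - (1 / y) ^ P.natDegree ≠ 0 := by linarith
        field_simp
        ring

theorem inv_one_sub_le (x : ℝ) (h0 : 0 ≤ x) (h1 : x ≤ 2 / 3) :
    (1 - x)⁻¹ ≤ Real.exp (x + 3 * x ^ 2) := by
  have h2 : 0 < 1 - x := by linarith
  have h3 := Real.one_sub_inv_le_log_of_pos h2
  have h4 : -(x + 3 * x ^ 2) ≤ 1 - (1 - x)⁻¹ := by
    have : 1 - (1 - x)⁻¹ = -(x / (1 - x)) := by field_simp; ring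
    rw [this, neg_le_neg_iff, div_le_iff₀ h2]
    nlinarith [mul_nonneg h0 h0, mul_nonneg (mul_nonneg h0 h0) h0]
  have h5 : Real.exp (-(x + 3 * x ^ 2)) ≤ 1 - x := by
    rw [← Real.le_log_iff_exp_le h2]
    exact h4.trans h3
  rw [Real.exp_neg] at h5
  rw [inv_le_comm₀ h2 (Real.exp_pos _)]
  exact h5

theorem exp_interp (t : ℝ) (z k : ℕ) (hz : 1 ≤ z) (hk : k ≤ z) (ht : 0 ≤ t) :
    Real.exp (t * k / z) ≤ 1 + k * (Real.exp t / z) := by
  have hz0 : (0:ℝ) < z := by exact_mod_cast hz
  have hk1 : (k:ℝ) / z ≤ 1 := by rw [div_le_one hz0]; exact_mod_cast hk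
  have h := convexOn_exp.2 (Set.mem_univ t) (Set.mem_univ 0) (show (0:ℝ) ≤ (k:ℝ) / z by positivity)
    (show (0:ℝ) ≤ 1 - (k:ℝ) / z by linarith) (by ring)
  simp only [smul_eq_mul, mul_zero, add_zero, Real.exp_zero, mul_one] at h
  have h2 : t * k / z = k / z * t := by ring
  rw [h2]
  have h3 : (k:ℝ) / z * Real.exp t = k * (Real.exp t / z) := by ring
  have h4 : (0:ℝ) ≤ (k:ℝ) / z := by positivity
  linarith

/-- Rankin's bound: the sum over the irreducible polynomials -/
theorem smooth_bound (z : ℕ) (hz : 1 ≤ z) (t : ℝ) (ht : 0 ≤ t) (htz : t / z ≤ 1 / 20) (j : ℕ) :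
    ((SmS (PrS F 0 z) j).card : ℝ) ≤
      (qr F * Real.exp (-(t / z))) ^ j * Real.exp (1 + Real.log z + Real.exp t + 12) := by
  have hq := two_le_qr F
  have hq0 := qr_pos F
  have hz0 : (0:ℝ) < z := by exact_mod_cast hz
  set w : ℝ := t / z with hw
  have hw0 : 0 ≤ w := by positivity
  set y : ℝ := qr F * Real.exp (-w) with hy
  have he : 19 / 20 ≤ Real.exp (-w) := by
    have := Real.add_one_le_exp (-w)
    linarith
  have hy1 : 19 / 10 ≤ y := by rw [hy]; nlinarith
  have hy0 : 0 < y := by linarith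
  refine (SmS_bound (PrS F 0 z) (fun P hP => ⟨(mem_PrS.1 hP).1, (mem_PrS.1 hP).2.1⟩) y
    (by linarith) j).trans ?_
  apply mul_le_mul_of_nonneg_left _ (by positivity)
  have hyinv : 1 / y ≤ 10 / 19 := by
    rw [div_le_div_iff₀ hy0 (by norm_num)]
    linarith
  calc ∏ P ∈ PrS F 0 z, (1 - (1 / y) ^ P.natDegree)⁻¹
      ≤ ∏ P ∈ PrS F 0 z, Real.exp ((1 / y) ^ P.natDegree + 3 * ((1 / y) ^ P.natDegree) ^ 2) := by
        apply Finset.prod_le_prod
        · intro P _
          rw [inv_nonneg, sub_nonneg]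
          exact pow_le_one₀ (by positivity) (by linarith)
        · intro P hP
          apply inv_one_sub_le _ (by positivity)
          have hd : 1 ≤ P.natDegree := Irreducible.natDegree_pos (mem_PrS.1 hP).2.1
          calc (1 / y) ^ P.natDegree ≤ (1 / y) ^ 1 :=
                pow_le_pow_of_le_one (by positivity) (by linarith) hd
            _ ≤ 2 / 3 := by rw [pow_one]; linarith
    _ = Real.exp (∑ P ∈ PrS F 0 z, ((1 / y) ^ P.natDegree + 3 * ((1 / y) ^ P.natDegree) ^ 2)) := by
        rw [Real.exp_sum]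
    _ ≤ Real.exp (1 + Real.log z + Real.exp t + 12) := by
        apply Real.exp_le_exp.mpr
        rw [sum_PrS (F := F) 0 z (fun k => (1 / y) ^ k + 3 * ((1 / y) ^ k) ^ 2)]
        have h1 : ∀ k ∈ Ioc 0 z, (NI F k : ℝ) * ((1 / y) ^ k + 3 * ((1 / y) ^ k) ^ 2) ≤
            1 / (k:ℝ) + Real.exp t / z + 3 * (7 / 10) ^ k := by
          intro k hk
          rw [mem_Ioc] at hk
          have hk0 : (0:ℝ) < k := by exact_mod_cast hk.1
          have hk1 : (1:ℝ) ≤ k := by exact_mod_cast hk.1
          have e1 : (1 / y) ^ k = 1 / qr F ^ k * Real.exp (t * k / z) := by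
            rw [hy, one_div, mul_inv, mul_pow, ← Real.exp_neg, neg_neg, ← Real.exp_nat_mul, hw,
              inv_pow, one_div]
            congr 2
            ring
          have e2 : (NI F k : ℝ) * (1 / y) ^ k ≤ 1 / (k:ℝ) + Real.exp t / z := by
            rw [e1]
            calc (NI F k : ℝ) * (1 / qr F ^ k * Real.exp (t * k / z))
                = (NI F k : ℝ) / qr F ^ k * Real.exp (t * k / z) := by ring
              _ ≤ 1 / k * (1 + k * (Real.exp t / z)) :=
                  mul_le_mul (NI_real_le k hk.1) (exp_interp t z k hz hk.2 ht)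
                    (Real.exp_pos _).le (by positivity)
              _ = 1 / (k:ℝ) + Real.exp t / z := by field_simp
          have e3 : (NI F k : ℝ) * (3 * ((1 / y) ^ k) ^ 2) ≤ 3 * (7 / 10) ^ k := by
            have h2 : (NI F k : ℝ) ≤ qr F ^ k := by
              have h3 := NI_real_le (F := F) k hk.1
              have h4 : (1:ℝ) / k ≤ 1 := by rw [div_le_one hk0]; exact hk1
              have h5 := h3.trans h4
              rwa [div_le_one (by positivity)] at h5
            calc (NI F k : ℝ) * (3 * ((1 / y) ^ k) ^ 2)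
                ≤ qr F ^ k * (3 * ((1 / y) ^ k) ^ 2) :=
                  mul_le_mul_of_nonneg_right h2 (by positivity)
              _ = 3 * (qr F * (1 / y) ^ 2) ^ k := by rw [mul_pow]; ring
              _ ≤ 3 * (7 / 10) ^ k := by
                  apply mul_le_mul_of_nonneg_left _ (by norm_num)
                  apply pow_le_pow_left₀ (by positivity)
                  have h6 : qr F * (1 / y) ^ 2 = 1 / (y * Real.exp (-w)) := by
                    rw [hy]; field_simp
                  rw [h6, div_le_div_iff₀ (by positivity) (by norm_num)]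
                  nlinarith
          rw [mul_add]
          linarith
        refine (Finset.sum_le_sum h1).trans ?_
        rw [Finset.sum_add_distrib, Finset.sum_add_distrib, Finset.sum_const, Nat.card_Ioc,
          nsmul_eq_mul, Nat.sub_zero, ← Finset.mul_sum]
        have h2 := sum_inv_le z hz
        have h3 : (z:ℝ) * (Real.exp t / z) = Real.exp t := by field_simp
        have h4 : ∑ k ∈ Ioc 0 z, (7 / 10 : ℝ) ^ k ≤ 4 := by
          have h5 : Ioc 0 z = Ico 1 (z + 1) := by ext k; simp only [mem_Ioc, mem_Ico]; omega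
          rw [h5]
          refine (geom_sum_Ico_le_of_lt_one (x := (7 / 10 : ℝ)) (by norm_num) (by norm_num)).trans ?_
          norm_num
        rw [h3]
        linarith

/-- all polynomials of degree less than `m` with irreducible factors of degree at most `z` -/
theorem smooth_count (z : ℕ) (hz : 1 ≤ z) (t : ℝ) (ht : 0 ≤ t) (htz : t / z ≤ 1 / 20) (m : ℕ) :
    (((PD F m).filter (fun h => h ≠ 0 ∧ ∀ P : F[X], P.Monic → Irreducible P → P ∣ h →
      P.natDegree ≤ z)).card : ℝ) ≤
      4 * (qr F * Real.exp (-(t / z))) ^ m * Real.exp (1 + Real.log z + Real.exp t + 12) := by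
  have hq := two_le_qr F
  have hq0 := qr_pos F
  have hz0 : (0:ℝ) < z := by exact_mod_cast hz
  set y : ℝ := qr F * Real.exp (-(t / z)) with hy
  have he : 19 / 20 ≤ Real.exp (-(t / z)) := by
    have := Real.add_one_le_exp (-(t / z))
    linarith
  have hy1 : 19 / 10 ≤ y := by rw [hy]; nlinarith
  set E : ℝ := Real.exp (1 + Real.log z + Real.exp t + 12) with hE
  have hE0 : 0 < E := Real.exp_pos _
  have h1 : ((PD F m).filter (fun h => h ≠ 0 ∧ ∀ P : F[X], P.Monic → Irreducible P → P ∣ h →
      P.natDegree ≤ z)) ⊆ (range m).biUnion (fun j =>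
        ((univ : Finset F) ×ˢ SmS (PrS F 0 z) j).image (fun ag => C ag.1 * ag.2)) := by
    intro h hh
    rw [mem_filter, mem_PD] at hh
    obtain ⟨hd, h0, hs⟩ := hh
    rw [mem_biUnion]
    refine ⟨h.natDegree, ?_, ?_⟩
    · rw [mem_range]
      rw [degree_eq_natDegree h0] at hd
      exact_mod_cast hd
    · rw [mem_image]
      have hl : h.leadingCoeff ≠ 0 := leadingCoeff_ne_zero.2 h0
      refine ⟨(h.leadingCoeff, h * C (h.leadingCoeff)⁻¹), ?_, ?_⟩
      · rw [mem_product]
        refine ⟨mem_univ _, ?_⟩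
        rw [mem_SmS]
        refine ⟨monic_mul_leadingCoeff_inv h0, natDegree_mul_leadingCoeff_inv h h0, ?_⟩
        intro P hP1 hP2 hP3
        have hP4 : P ∣ h := by
          rw [← (isUnit_C.2 (inv_ne_zero hl).isUnit).dvd_mul_right]
          exact hP3
        rw [mem_PrS]
        exact ⟨hP1, hP2, Irreducible.natDegree_pos hP2, hs P hP1 hP2 hP4⟩
      · simp only
        rw [mul_comm h, ← mul_assoc, ← C_mul, mul_inv_cancel₀ hl, C_1, one_mul]
  have h2 : (((PD F m).filter (fun h => h ≠ 0 ∧ ∀ P : F[X], P.Monic → Irreducible P → P ∣ h →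
      P.natDegree ≤ z)).card : ℝ) ≤ ∑ j ∈ range m, qr F * (y ^ j * E) := by
    have h3 := (Finset.card_le_card h1).trans Finset.card_biUnion_le
    have h4 : (((PD F m).filter (fun h => h ≠ 0 ∧ ∀ P : F[X], P.Monic → Irreducible P → P ∣ h →
      P.natDegree ≤ z)).card : ℝ) ≤ ∑ j ∈ range m,
        ((((univ : Finset F) ×ˢ SmS (PrS F 0 z) j).image (fun ag => C ag.1 * ag.2)).card : ℝ) := by
      exact_mod_cast h3
    refine h4.trans (Finset.sum_le_sum (fun j _ => ?_))
    have h5 : ((((univ : Finset F) ×ˢ SmS (PrS F 0 z) j).image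
        (fun ag => C ag.1 * ag.2)).card : ℝ) ≤ qr F * (SmS (PrS F 0 z) j).card := by
      have := Finset.card_image_le (s := (univ : Finset F) ×ˢ SmS (PrS F 0 z) j)
        (f := fun ag => C ag.1 * ag.2)
      rw [Finset.card_product, Finset.card_univ] at this
      unfold qr
      exact_mod_cast this
    exact h5.trans (mul_le_mul_of_nonneg_left (smooth_bound z hz t ht htz j) hq0.le)
  refine h2.trans ?_
  rw [← Finset.mul_sum, ← Finset.sum_mul, geom_sum_eq (by linarith)]
  have h6 : qr F ≤ 4 * (y - 1) := by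
    have : 19 / 20 * qr F ≤ y := by rw [hy]; nlinarith
    linarith
  have h7 : 0 < y ^ m := by positivity
  have h8 : (y ^ m - 1) / (y - 1) ≤ y ^ m / (y - 1) :=
    div_le_div_of_nonneg_right (by linarith) (by linarith)
  calc qr F * ((y ^ m - 1) / (y - 1) * E) ≤ 4 * (y - 1) * (y ^ m / (y - 1) * E) := by
        apply mul_le_mul h6 (mul_le_mul_of_nonneg_right h8 hE0.le) _ (by linarith)
        have h9 : (1:ℝ) ≤ y ^ m := one_le_pow₀ (by linarith)
        have h10 : 0 ≤ (y ^ m - 1) / (y - 1) := div_nonneg (by linarith) (by linarith)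
        positivity
    _ = 4 * y ^ m * E := by
        have : y - 1 ≠ 0 := by linarith
        field_simp

end Pool.Agent.H525.FF
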